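import Pool.Agent.Lib.MP_a78e1f_lc.T.Iface

/-!
# SYSM: the system for Miller forcing
-/

set_option autoImplicit false

universe u v w

open Cardinal Filter MeasureTheory

namespace Pool.Agent.Lib.MP_a78e1f_lc.H76

open Pool.Agent.Lib.MP_100a6c_lc
open Pool.Agent.Lib.MP_e6fef2_lc
open Pool.Agent.Lib.MP_6d445e_gt

section

variable {A C : Type u} [CompleteBooleanAlgebra A] [CompleteBooleanAlgebra C] {f : A → C}

theorem addM_mono {π : C → A} (h : AddM f π) {c c' : C} (hc : c ≤ c') : π c ≤ π c' := by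
  have h1 := h.sup c c'
  rw [sup_eq_right.2 hc] at h1
  rw [h1]
  exact le_sup_left

theorem addM_inf (hf : IsCE f) (d : C) : AddM f fun c => prj f (c ⊓ d) := by
  have hp := (all_alg A C f hf).2.2.2.2.2.2.2.2.2.2.2.2
  refine ⟨fun c c' => ?_, fun c a => ?_⟩
  · have h1 : (c ⊔ c') ⊓ d = (c ⊓ d) ⊔ (c' ⊓ d) := inf_sup_right _ _ _
    show prj f ((c ⊔ c') ⊓ d) = prj f (c ⊓ d) ⊔ prj f (c' ⊓ d)
    rw [h1]
    apply le_antisymm
    · rw [(all_alg A C f hf).2.2.2.2.2.2.2.2.2.2.1]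
      have hle := (all_alg A C f hf).2.2.2.2.2.2.2.2.2.1
      have hm := (all_alg A C f hf).2.2.2.2.1
      exact sup_le ((hle _).trans ((hm _ _).2 le_sup_left))
        ((hle _).trans ((hm _ _).2 le_sup_right))
    · exact sup_le (hp.1 _ _ le_sup_left) (hp.1 _ _ le_sup_right)
  · show prj f (c ⊓ f a ⊓ d) = prj f (c ⊓ d) ⊓ a
    rw [← hp.2.2.2.2.1, inf_right_comm]

variable (hf : IsCE f) {ND : List ℕ → C} {lq : List ℕ → C → A}

include hf in
theorem core_nxt (pir : PirStatement.{u, 0}) (rfm : RfmStatement.{u}) (regx : RegxStatement.{u})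
    (kp : KapStatement.{u}) (pf : AddM f (prj f)) (hadd : ∀ t, AddM f (lq t))
    (h2 : ∀ c, prj f c = ⨆ t, lq t c) (h3 : ∀ t t' c, c ≤ ND t' → lq t c ≠ ⊥ → t' <+: t)
    (h4 : ∀ t (m : ℕ) c, lq t c ≤ ⨆ l, ⨆ _ : m ≤ l, prj f (c ⊓ ND (t ++ [l])))
    (J : Type u) (cj : J → C) (hJ : ⨆ j, cj j = ⊤) (t : List ℕ) (e : RA C) (E : Set (Pt C))
    (hE : MeasurableSet E) (he : e ⊓ mkR E = ⊥) (m : ℕ) :
    piR f (lq t) e ≤ ⨆ l, ⨆ _ : m ≤ l, ⨆ j, ⨆ ε : List Bool → C, ⨆ _ : Avd ε E,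
      ⨆ t', ⨆ _ : t ++ [l] <+: t', piR f (lq t') (e ⊓ kap (cj j) ⊓ cl ε) := by
  obtain ⟨-, -, -, q4, q5, -, q7, -⟩ := pir A C f hf (prj f) pf
  have hk := (kp C).1
  have hR := (rfm A C f hf).1
  -- the successor
  have s1 : piR f (lq t) e ≤ ⨆ l : {l : ℕ // m ≤ l}, piR f (fun c => prj f (c ⊓ ND (t ++ [l.1]))) e := by
    refine (pir A C f hf (lq t) (hadd t)).2.2.2.2.2.2.1 {l : ℕ // m ≤ l}
      (fun l c => prj f (c ⊓ ND (t ++ [l.1]))) (fun l => addM_inf hf _) (fun c => ?_) e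
    refine (h4 t m c).trans (iSup_le fun l => iSup_le fun hl => ?_)
    exact le_iSup (fun l : {l : ℕ // m ≤ l} => prj f (c ⊓ ND (t ++ [l.1]))) ⟨l, hl⟩
  refine s1.trans (iSup_le fun l => ?_)
  obtain ⟨l, hl⟩ := l
  refine le_iSup_of_le l (le_iSup_of_le hl ?_)
  rw [q4, q5]
  -- the dense set
  have s2 : e ⊓ kap (ND (t ++ [l])) = ⨆ j, e ⊓ kap (ND (t ++ [l])) ⊓ kap (cj j) := by
    have a1 : (⨆ j, kap (cj j)) = (⊤ : RA C) := by
      have a0 := (all_alg C (RA C) kap hk).2.2.2.2.2.1 J cj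
      rw [hJ, (all_alg C (RA C) kap hk).1] at a0
      exact a0.symm
    have a2 := inf_iSup_eq (e ⊓ kap (ND (t ++ [l]))) (fun j => kap (cj j))
    have a3 : e ⊓ kap (ND (t ++ [l])) = e ⊓ kap (ND (t ++ [l])) ⊓ ⨆ j, kap (cj j) := by
      rw [a1]
      exact (inf_top_eq _).symm
    exact a3.trans a2
  show prj (rmap f) (e ⊓ kap (ND (t ++ [l]))) ≤ _
  rw [s2, (all_alg (RA A) (RA C) (rmap f) hR).2.2.2.2.2.2.2.2.2.2.2.2.2.1]
  refine iSup_mono fun j => ?_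
  -- the closed set
  have s3 : e ⊓ kap (ND (t ++ [l])) ⊓ kap (cj j) ⊓ mkR E = ⊥ := by
    rw [← le_bot_iff, ← he]
    exact inf_le_inf_right _ (inf_le_left.trans inf_le_left)
  rw [← q5]
  refine (regx A C f hf (prj f) pf _ E hE s3).trans
    (iSup_mono fun ε => iSup_mono fun hε => ?_)
  -- the next node
  refine (q7 (List ℕ) lq hadd (fun c => (h2 c).le) _).trans (iSup_le fun t' => ?_)
  by_cases hp : t ++ [l] <+: t'
  · refine le_iSup_of_le t' (le_iSup_of_le hp ?_)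
    refine addM_mono (pir A C f hf (lq t') (hadd t')).2.1 ?_
    exact inf_le_inf_right _ (inf_le_inf_right _ inf_le_left)
  · obtain ⟨-, -, -, p4, -, -, -, -⟩ := pir A C f hf (lq t') (hadd t')
    have e1 : e ⊓ kap (ND (t ++ [l])) ⊓ kap (cj j) ⊓ cl ε =
        e ⊓ kap (ND (t ++ [l])) ⊓ kap (cj j) ⊓ cl ε ⊓ kap (ND (t ++ [l])) :=
      (inf_eq_left.2 (inf_le_left.trans (inf_le_left.trans inf_le_right))).symm
    have z : ∀ c, lq t' (c ⊓ ND (t ++ [l])) = ⊥ := by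
      intro c
      by_contra hne
      exact hp (h3 t' (t ++ [l]) _ inf_le_right hne)
    have hz : AddM f fun c => lq t' (c ⊓ ND (t ++ [l])) :=
      ⟨fun c c' => by simp only [z, sup_idem], fun c a => by simp only [z, bot_inf_eq]⟩
    have e2 : piR f (lq t') (e ⊓ kap (ND (t ++ [l])) ⊓ kap (cj j) ⊓ cl ε) = ⊥ := by
      rw [e1, ← p4]
      have h5 := ((pir A C f hf _ hz).1 (e ⊓ kap (ND (t ++ [l])) ⊓ kap (cj j) ⊓ cl ε) ⊤).2
        fun q _ => z _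
      exact (top_inf_eq _).symm.trans h5
    rw [e2]
    exact bot_le

end

theorem isMil_wf : WellFounded fun _ _ : ULift.{u} (List ℕ) => False :=
  ⟨fun a => ⟨a, fun _ h => h.elim⟩⟩

/-- Conditions below a dense set. -/
theorem cond_top (gnd : GndStatement.{u}) (gmx : GmxStatement.{u}) (hT : TFam IsMil) (A : Type u)
    [CompleteBooleanAlgebra A] (D : Set (tC IsMil A)) (hD : sSup D = ⊤) :
    ⨆ p : {p : A × TX IsMil A // ∃ d ∈ D, tE IsMil A p.1 ⊓ tG p.2 ≤ d},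
      tE IsMil A p.1.1 ⊓ tG p.1.2 = (⊤ : tC IsMil A) := by
  obtain ⟨-, m2, m3, -, -, -, -, -⟩ := gmx IsMil hT A
  have hne : Nonempty (TX IsMil A) := (gnd IsMil hT A).1
  have hf : IsCE (tE IsMil A) := (all_tw1 A (TX IsMil A) (TQ IsMil A)).1
  have hlin := (all_alg A (tC IsMil A) (tE IsMil A) hf).2.2.2.2.2.2.2.2.2.2.2.2.2.2.2.2.1
  obtain ⟨S, hS⟩ : ∃ S : tC IsMil A, S = ⨆ p : {p : A × TX IsMil A //
    ∃ d ∈ D, tE IsMil A p.1 ⊓ tG p.2 ≤ d}, tE IsMil A p.1.1 ⊓ tG p.1.2 := ⟨_, rfl⟩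
  rw [← hS]
  by_contra hcon
  have h1 : Sᶜ ≠ ⊥ := fun h => hcon (by rw [← compl_compl S, h, compl_bot])
  have h2 : ∃ d ∈ D, Sᶜ ⊓ d ≠ ⊥ := by
    by_contra hc
    push Not at hc
    apply h1
    have h3 : Sᶜ = ⨆ d ∈ D, Sᶜ ⊓ d := by
      have h0 : Sᶜ ⊓ sSup D = Sᶜ := by
        rw [hD]
        exact inf_top_eq _
      exact h0.symm.trans inf_sSup_eq
    rw [h3]
    simp only [iSup_eq_bot]
    exact hc
  obtain ⟨d, hd, h3⟩ := h2
  obtain ⟨b, τ, hb, h4⟩ := m2 _ h3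
  have h5 : tE IsMil A b ⊓ tG τ ≤ S := by
    rw [hS]
    exact le_iSup (fun p : {p : A × TX IsMil A // ∃ d ∈ D, tE IsMil A p.1 ⊓ tG p.2 ≤ d} =>
      tE IsMil A p.1.1 ⊓ tG p.1.2) ⟨(b, τ), d, hd, h4.trans inf_le_right⟩
  have h6 : tE IsMil A b ⊓ tG τ ≤ ⊥ := by
    rw [← inf_compl_self S]
    exact le_inf h5 (h4.trans inf_le_left)
  apply hb
  have h7 : prj (tE IsMil A) (tG τ ⊓ tE IsMil A b) = b := by
    refine (hlin _ _).trans ?_
    rw [m3]
    exact top_inf_eq _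
  rw [← h7]
  have h8 := (all_alg A (tC IsMil A) (tE IsMil A) hf).2.2.2.2.2.2.2.2.2.2.2.2.2.2.2.2.2.1
  refine (h8 _).2 (le_bot_iff.1 (le_trans (le_of_eq ?_) h6))
  exact inf_comm _ _

/-- Module SYSM. -/
theorem sysm (pir : PirStatement.{u, 0}) (rfm : RfmStatement.{u}) (regx : RegxStatement.{u})
    (kp : KapStatement.{u}) (gnd : GndStatement.{u}) (gmx : GmxStatement.{u})
    (fam : FamStatement) (hlp : LpStatement.{u}) : SysmStatement.{u} := by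
  intro A _
  have hT := fam.1
  have hne : Nonempty (TX IsMil A) := (gnd IsMil hT A).1
  have hf : IsCE (tE IsMil A) := (all_tw1 A (TX IsMil A) (TQ IsMil A)).1
  obtain ⟨g1, g2, g3, g4, g5, g6, g7, g8⟩ := gnd IsMil hT A
  obtain ⟨l1, l2, l3⟩ := hlp A
  -- the library map
  obtain ⟨lq, hlq⟩ : ∃ lq : List ℕ → tC IsMil A → A, ∀ t c, lq t c =
      ⨅ m : ℕ, ⨆ k, ⨆ _ : m ≤ k, prj (tE IsMil A) (c ⊓ tND (t ++ [k])) := ⟨_, fun _ _ => rfl⟩
  have elq : ∀ t, lq t = (lp t : MC A → A) := fun t => by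
    funext c
    rw [hlq]
    rfl
  have hadd : ∀ t, AddM (tE IsMil A) (lq t) := fun t => by
    rw [elq]
    exact l1 t
  have h2 : ∀ c, prj (tE IsMil A) c = ⨆ t, lq t c := fun c => by
    simp only [elq]
    exact l2 c
  have h3 : ∀ t t' c, c ≤ (tND t' : tC IsMil A) → lq t c ≠ ⊥ → t' <+: t := by
    intro t t' c hc hne
    rw [elq] at hne
    exact l3 t t' c hc hne
  have h4 : ∀ t (m : ℕ) c, lq t c ≤ ⨆ l, ⨆ _ : m ≤ l, prj (tE IsMil A) (c ⊓ tND (t ++ [l])) := by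
    intro t m c
    rw [hlq]
    exact iInf_le _ m
  have hinc : ∀ t c, ¬ Inc t → lq t c = ⊥ := by
    intro t c ht
    rw [← le_bot_iff]
    refine (h4 t 0 c).trans (iSup_le fun l => iSup_le fun _ => ?_)
    have e1 : (tND (t ++ [l]) : tC IsMil A) = ⊥ := by
      refine g6 _ fun T hT' hmem => ht ?_
      exact List.Pairwise.sublist (List.prefix_append t [l]).sublist (hT'.inc _ hmem)
    rw [e1]
    have := (all_alg A (tC IsMil A) (tE IsMil A) hf).2.2.2.2.2.2.2.2.2.2.2.2.2.2.2.2.2.1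
    exact ((this _).2 (inf_bot_eq _)).le
  have pf : AddM (tE IsMil A) (prj (tE IsMil A)) := by
    have := addM_inf hf (⊤ : tC IsMil A)
    simpa only [inf_top_eq] using this
  have hlin := (all_alg A (tC IsMil A) (tE IsMil A) hf).2.2.2.2.2.2.2.2.2.2.2.2.2.2.2.2.1
  refine ⟨ULift.{u} (List ℕ), ULift.down, fun _ _ => False,
    fun _ t e => piR (tE IsMil A) (lq t.down) e, ?_⟩
  refine ⟨isMil_wf, fun D _ θ => (pir A _ _ hf _ (hadd θ.down)).2.1, fun D _ θ e hi => ?_,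
    fun D _ e => ?_, fun D _ θ e a τ he => ?_, fun D D' hD _ θ e E hE he m => ?_⟩
  · have h5 := ((pir A _ _ hf _ (hadd θ.down)).1 e ⊤).2 fun q _ => hinc _ _ hi
    exact (top_inf_eq _).symm.trans h5
  · obtain ⟨-, -, -, -, q5, -, q7, -⟩ := pir A _ _ hf _ pf
    rw [← q5]
    refine (q7 (List ℕ) lq hadd (fun c => (h2 c).le) e).trans (iSup_le fun t => ?_)
    exact le_iSup (fun t : ULift.{u} (List ℕ) => piR (tE IsMil A) (lq t.down) e) ⟨t⟩
  · obtain ⟨-, q2, q3, -⟩ := pir A _ _ hf _ (hadd θ.down)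
    refine (addM_mono q2 he).trans ?_
    rw [q3]
    have hk := (kp A).1
    refine ((all_alg A (RA A) kap hk).2.2.2.2.1 _ _).2 ?_
    refine (h4 _ 0 _).trans (iSup_le fun l => iSup_le fun _ => ?_)
    have e1 : tE IsMil A a ⊓ tG τ ⊓ tND (θ.down ++ [l]) =
        tG τ ⊓ tND (θ.down ++ [l]) ⊓ tE IsMil A a :=
      (inf_assoc _ _ _).trans (inf_comm _ _)
    rw [e1]
    refine (hlin _ _).le.trans ?_
    rw [g7, inf_comm]
    refine inf_le_inf_left _ (le_of_ae ?_)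
    filter_upwards [τ.2] with g h5 h6
    exact h5.pre _ _ (List.prefix_append _ _) h6
  · refine le_trans ?_ le_sup_right
    refine (core_nxt hf pir rfm regx kp pf hadd h2 h3 h4
      {p : A × TX IsMil A // ∃ d ∈ D, tE IsMil A p.1 ⊓ tG p.2 ≤ d}
      (fun p => tE IsMil A p.1.1 ⊓ tG p.1.2) (cond_top gnd gmx hT A D hD) θ.down e E hE he m).trans ?_
    refine iSup_le fun l => iSup_le fun hl => iSup_le fun p => iSup_le fun ε =>
      iSup_le fun hε => iSup_le fun t' => iSup_le fun hp => ?_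
    refine le_iSup_of_le (ULift.up t') (le_iSup_of_le ⟨l, hl, hp⟩ ?_)
    refine le_iSup_of_le p.1.1 (le_iSup_of_le p.1.2 (le_iSup_of_le p.2 ?_))
    exact le_iSup_of_le ε (le_iSup_of_le hε le_rfl)

end Pool.Agent.Lib.MP_a78e1f_lc.H76
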