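import Pool.Agent.Lib.MP_a78e1f_lc.H76.TrGen

/-!
# TRM: trees of paths for Miller forcing
-/

set_option autoImplicit false

universe u v w

open Cardinal Filter MeasureTheory

namespace Pool.Agent.Lib.MP_a78e1f_lc.H76

open Pool.Agent.Lib.MP_100a6c_lc
open Pool.Agent.Lib.MP_e6fef2_lc
open Pool.Agent.Lib.MP_6d445e_gt

/-- Paths give a superperfect tree. -/
theorem mil_tp {A : Type u} [CompleteBooleanAlgebra A] {X : Type u} {nd : X → List ℕ}
    {ed : ℕ → X → X → A} {s0 : X} {P : List X → A} {g : Ult A}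
    (H : PT (fun t t' => t <+: t') nd ed s0 P g) : IsMil (TP nd P g) where
  nil := ⟨s0, [], H.ptr.root, List.nil_prefix⟩
  pre t t' h := by
    rintro ⟨s, ρ, hs, h'⟩
    exact ⟨s, ρ, hs, h.trans h'⟩
  inc t := by
    rintro ⟨s, ρ, hs, h⟩
    exact List.Pairwise.sublist h.sublist (H.inc s ρ hs)
  spl t := by
    rintro ⟨s, ρ, hs, h⟩
    refine ⟨nd s, h, fun m => ?_⟩
    obtain ⟨s', l, hl, hp, hs'⟩ := H.ptr.inf s ρ hs m
    exact ⟨l, hl, s', s :: ρ, hs', hp⟩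

/-- Superperfect subtrees have infinitely splitting nodes high up, and these are nodes of paths. -/
theorem mil_spl (fam : TFam IsMil) {A : Type u} [CompleteBooleanAlgebra A] {X : Type u}
    {nd : X → List ℕ} {ed : ℕ → X → X → A} {s0 : X} {P : List X → A} {g : Ult A}
    (H : PT (fun t t' => t <+: t') nd ed s0 P g) {T : Set (List ℕ)} (hT : IsMil T)
    (hsub : T ⊆ TP nd P g) (n0 : ℕ) : ∃ s ρ, n0 ≤ ρ.length ∧ P (s :: ρ) ∈ g ∧
      ∀ m : ℕ, ∃ s' l, m ≤ l ∧ nd s ++ [l] <+: nd s' ∧ P (s' :: s :: ρ) ∈ g ∧ nd s' ∈ T := by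
  obtain ⟨s, ρ, h1, h2, h3⟩ := H.level fam hT hsub n0
  obtain ⟨t, h4, h5⟩ := hT.spl _ h3
  obtain ⟨k, -, hk⟩ := h5 0
  obtain ⟨k', hk', hkk⟩ := h5 (k + 1)
  obtain ⟨q, κ, h6, h7⟩ := hsub hk
  obtain ⟨r, σ, h8, h9⟩ := H.branch (by omega : k ≠ k') (hsub hkk) h6 h7
  subst h9
  refine ⟨r, σ, ?_, h8, fun m => ?_⟩
  · by_contra hlt
    push Not at hlt
    have h10 := H.suffix_of h2 h8 (Or.inl h4) (by omega)
    rcases H.mono' h2 h10 with h11 | ⟨l, hl⟩
    · have h12 := congrArg List.length h11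
      simp only [List.length_cons] at h12
      omega
    · exact not_snoc_self (hl.trans h4)
  · obtain ⟨l, hl, hl'⟩ := h5 m
    obtain ⟨s', h10, h11, h12⟩ := H.next fam hT hsub h8 hl'
    exact ⟨s', l, hl, h11, h10, h12⟩

/-- Module TRM. -/
theorem trm (ltree : LtreeStatement.{u}) (gnd : GndStatement.{u}) (gmx : GmxStatement.{u})
    (fam : FamStatement) : TrmStatement.{u} :=
  trs_of fam.1 (fun _ _ h => h) ltree gnd gmx (fun _ _ _ _ _ H => mil_tp H)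
    (fun _ _ _ _ _ H _ hT hsub n0 => mil_spl fam.1 H hT hsub n0)

end Pool.Agent.Lib.MP_a78e1f_lc.H76
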