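import Pool.Agent.Lib.MP_a78e1f_lc.T.Iface

/-!
# LPL: the map `lpL t` (pure decision for Laver forcing)
-/

set_option autoImplicit false
set_option linter.unusedSectionVars false

universe u v w

open Cardinal Filter MeasureTheory

namespace Pool.Agent.Lib.MP_a78e1f_lc.H76

open Pool.Agent.Lib.MP_100a6c_lc
open Pool.Agent.Lib.MP_e6fef2_lc
open Pool.Agent.Lib.MP_6d445e_gt

/-! ## Lists -/

theorem cmp_of_snoc {s t : List ℕ} {k : ℕ} (h : Cmp s (t ++ [k])) : Cmp s t := by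
  rcases h with h | h
  · rcases List.prefix_concat_iff.1 h with h | h
    · exact Or.inr (h ▸ List.prefix_append _ _)
    · exact Or.inl h
  · exact Or.inr ((List.prefix_append _ _).trans h)

theorem prefix_anti {s t : List ℕ} (h : s <+: t) (h' : t <+: s) : s = t :=
  h.eq_of_length (le_antisymm h.length_le h'.length_le)

theorem snoc_prefix {s t : List ℕ} {k : ℕ} (h : t <+: s) (hne : s ≠ t)
    (hc : Cmp s (t ++ [k])) : t ++ [k] <+: s := by
  rcases hc with hc | hc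
  · rcases List.prefix_concat_iff.1 hc with h1 | h1
    · exact h1 ▸ List.prefix_rfl
    · exact absurd (prefix_anti h1 h) hne
  · exact hc

theorem snoc_inj {s t : List ℕ} {k k' : ℕ} (h : t ++ [k] <+: s) (h' : t ++ [k'] <+: s) :
    k = k' := by
  have h1 := List.prefix_of_prefix_length_le h h' (by simp)
  have h2 := h1.eq_of_length (by simp)
  simpa using h2

theorem snoc_cmp {t : List ℕ} {k k' : ℕ} (h : Cmp (t ++ [k]) (t ++ [k'])) : k = k' := by
  rcases h with h | h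
  · exact snoc_inj h List.prefix_rfl
  · exact snoc_inj List.prefix_rfl h

/-- A proper initial segment `s` of `t` has at most one successor comparable with `t`. -/
theorem snoc_le_of_cmp {s t : List ℕ} {k : ℕ} (h : s <+: t) (hne : s ≠ t)
    (hc : Cmp (s ++ [k]) t) : s ++ [k] <+: t := by
  rcases hc with hc | hc
  · exact hc
  · rcases List.prefix_concat_iff.1 hc with h1 | h1
    · exact h1 ▸ List.prefix_rfl
    · exact absurd (prefix_anti h h1) hne

/-- `T` has the stem `t`. -/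
structure Stem (T : Set (List ℕ)) (t : List ℕ) : Prop where
  mem : t ∈ T
  cmp : ∀ s ∈ T, Cmp s t
  spl : ∀ s, t <+: s → s ∈ T → ∀ m, ∃ k, m ≤ k ∧ s ++ [k] ∈ T

theorem IsLav.of_stem {T : Set (List ℕ)} (h1 : ∀ t t', t <+: t' → t' ∈ T → t ∈ T)
    (h2 : ∀ t ∈ T, Inc t) {t : List ℕ} (h : Stem T t) : IsLav T :=
  ⟨h1, h2, t, h.mem, h.cmp, fun s hs hts => h.spl s hts hs⟩

theorem stem_union {T : ℕ → Set (List ℕ)} {K : ℕ → Prop} {t : List ℕ}
    (hp : ∀ k, K k → ∀ t t', t <+: t' → t' ∈ T k → t ∈ T k)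
    (hs : ∀ k, K k → Stem (T k) (t ++ [k])) (hK : ∀ m, ∃ k, m ≤ k ∧ K k) :
    Stem {s | ∃ k, K k ∧ s ∈ T k} t where
  mem := by
    obtain ⟨k, -, hk⟩ := hK 0
    exact ⟨k, hk, hp k hk _ _ (List.prefix_append _ _) (hs k hk).mem⟩
  cmp s := by
    rintro ⟨k, hk, h⟩
    exact cmp_of_snoc ((hs k hk).cmp s h)
  spl s hts := by
    rintro ⟨k, hk, h⟩ m
    by_cases hst : s = t
    · subst hst
      obtain ⟨k', hk', h'⟩ := hK m
      exact ⟨k', hk', k', h', (hs k' h').mem⟩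
    · obtain ⟨k', hk', h'⟩ := (hs k hk).spl s (snoc_prefix hts hst ((hs k hk).cmp s h)) h m
      exact ⟨k', hk', k, hk, h'⟩

theorem stem_sub {T : Set (List ℕ)} {P : List ℕ → Prop} {t : List ℕ} (hT : Stem T t)
    (ht : P t) (hP : ∀ s, P s → ∃ m, ∀ k, m ≤ k → P (s ++ [k])) :
    Stem {s | s ∈ T ∧ ∀ s', t <+: s' → s' <+: s → P s'} t where
  mem := ⟨hT.mem, fun s' h h' => prefix_anti h h' ▸ ht⟩
  cmp s hs := hT.cmp s hs.1
  spl s hts hs m := by
    obtain ⟨m', hm'⟩ := hP s (hs.2 s hts List.prefix_rfl)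
    obtain ⟨k, hk, hk'⟩ := hT.spl s hts hs.1 (max m m')
    refine ⟨k, (le_max_left _ _).trans hk, hk', fun s' h1 h2 => ?_⟩
    rcases List.prefix_concat_iff.1 h2 with h3 | h3
    · exact h3 ▸ hm' k ((le_max_right _ _).trans hk)
    · exact hs.2 s' h1 h3

theorem exists_snoc {T : Set (List ℕ)} (hT : IsLav T) (fam : TFam IsLav) {t : List ℕ}
    (h : ∀ s ∈ T, Cmp s t) : ∃ k, t ++ [k] ∈ T := by
  have long : ∀ n, ∃ s ∈ T, s.length = n := by
    intro n
    induction n with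
    | zero => exact ⟨[], fam.nil T hT, rfl⟩
    | succ n ih =>
      obtain ⟨s, hs, hn⟩ := ih
      obtain ⟨k, hk⟩ := fam.ext T hT s hs
      exact ⟨_, hk, by simp [hn]⟩
  obtain ⟨s, hs, hn⟩ := long t.length
  have h1 : s = t := by
    rcases h s hs with h1 | h1
    · exact h1.eq_of_length hn
    · exact (h1.eq_of_length hn.symm).symm
  subst h1
  exact fam.ext T hT s hs

/-! ## Evaluation -/

section

variable {A : Type u} [CompleteBooleanAlgebra A]

theorem meas_mem (a : A) : Measurable fun g : Ult A => a ∈ g :=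
  measurableSet_setOfPred.1 (measurable_mem A a)

theorem of_tst {𝒯 : Set (List ℕ) → Prop} {g : Ult A} {σ : TX 𝒯 A} {t : List ℕ}
    (h : tst σ t ∈ g) : σ.1 t ∈ g ∧ ∀ t', σ.1 t' ∈ g → Cmp t' t := by
  obtain ⟨h1, h2⟩ := g.mem_inf.1 h
  refine ⟨h1, fun t' ht' => ?_⟩
  by_contra hc
  have h3 : (σ.1 t')ᶜ ∈ g := g.mono ((iInf_le _ t').trans (iInf_le _ hc)) h2
  exact g.mem_compl.1 h3 ht'

theorem mem_leT {𝒯 : Set (List ℕ) → Prop} (τ τ' : TX 𝒯 A) :
    ∀ᶠ g in ae A, (TQ 𝒯 A).le τ τ' ∈ g ↔ ∀ s, τ.1 s ∈ g → τ'.1 s ∈ g := by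
  filter_upwards [ae_iInf fun s : List ℕ => τ.1 s ⇨ τ'.1 s] with g h1
  change (⨅ t, τ.1 t ⇨ τ'.1 t) ∈ g ↔ _
  rw [h1]
  simp only [g.mem_himp]

theorem mem_stL (τ : TX IsLav A) (t : List ℕ) :
    ∀ᶠ g in ae A, stL τ t ∈ g ↔ Stem {s | τ.1 s ∈ g} t := by
  filter_upwards [ae_iInf fun s : List ℕ => ⨅ _ : ¬ Cmp s t, (τ.1 s)ᶜ,
    ae_all fun s : List ℕ => ae_iInf fun _ : ¬ Cmp s t => (τ.1 s)ᶜ,
    ae_iInf fun s : List ℕ => ⨅ _ : t <+: s, τ.1 s ⇨ ⨅ m : ℕ, ⨆ k, ⨆ _ : m ≤ k, τ.1 (s ++ [k]),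
    ae_all fun s : List ℕ => ae_iInf fun _ : t <+: s => τ.1 s ⇨
      ⨅ m : ℕ, ⨆ k, ⨆ _ : m ≤ k, τ.1 (s ++ [k]),
    ae_all fun s : List ℕ => ae_iInf fun m : ℕ => ⨆ k, ⨆ _ : m ≤ k, τ.1 (s ++ [k]),
    ae_all fun s : List ℕ => ae_all fun m : ℕ => ae_iSup fun k => ⨆ _ : m ≤ k, τ.1 (s ++ [k]),
    ae_all fun s : List ℕ => ae_all fun m : ℕ => ae_all fun k : ℕ =>
      ae_iSup fun _ : m ≤ k => τ.1 (s ++ [k])] with g h1 h2 h3 h4 h5 h6 h7
  have e1 : stL τ t ∈ g ↔ (τ.1 t ∈ g ∧ ∀ s, ¬ Cmp s t → τ.1 s ∉ g) ∧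
      ∀ s, t <+: s → τ.1 s ∈ g → ∀ m : ℕ, ∃ k, m ≤ k ∧ τ.1 (s ++ [k]) ∈ g := by
    unfold stL tst
    rw [g.mem_inf, g.mem_inf, h1, h3]
    refine and_congr (and_congr_right fun _ => forall_congr' fun s => ?_)
      (forall_congr' fun s => ?_)
    · rw [h2]
      simp only [g.mem_compl]
    · rw [h4]
      refine forall_congr' fun _ => ?_
      rw [g.mem_himp, h5]
      refine imp_congr_right fun _ => forall_congr' fun m => ?_
      rw [h6]
      refine exists_congr fun k => ?_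
      rw [h7]
      exact exists_prop
  rw [e1]
  constructor
  · rintro ⟨⟨a1, a2⟩, a3⟩
    exact ⟨a1, fun s hs => by
      by_contra hc
      exact a2 s hc hs, a3⟩
  · intro h
    exact ⟨⟨h.mem, fun s hc hs => hc (h.cmp s hs)⟩, h.spl⟩

end

/-! ## Abstract version -/

/-- What is used of the extension by Laver forcing. -/
structure LavExt {A C : Type u} [CompleteBooleanAlgebra A] [CompleteBooleanAlgebra C] (f : A → C)
    (G : TX IsLav A → C) (ND : List ℕ → C) : Prop where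
  fam : TFam IsLav
  ce : IsCE f
  ne : Nonempty (TX IsLav A)
  nd : ∀ (τ : TX IsLav A) t, f (tst τ t) ⊓ G τ ≤ ND t
  rs : ∀ (τ : TX IsLav A) t, ∃ τ' : TX IsLav A, f (τ.1 t) ⊓ G τ' = G τ ⊓ ND t ∧
    τ.1 t ≤ tst τ' t ∧ τ.1 t ≤ (TQ IsLav A).le τ' τ ∧
    ∀ s, τ.1 t ⊓ τ'.1 s = τ.1 t ⊓ ⨆ _ : Cmp s t, τ.1 s
  de : ∀ c : C, c ≠ ⊥ → ∃ (b : A) (τ : TX IsLav A), b ≠ ⊥ ∧ f b ⊓ G τ ≤ c
  pj : ∀ τ : TX IsLav A, prj f (G τ) = ⊤
  mx : ∀ (T : Type u) (a : T → A) (τ : T → TX IsLav A), (∀ t t', t ≠ t' → a t ⊓ a t' = ⊥) →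
    ∃ τ' : TX IsLav A, ∀ t s, a t ⊓ τ'.1 s = a t ⊓ (τ t).1 s
  cg : ∀ (τ τ' : TX IsLav A) (a : A), (∀ s, a ⊓ τ'.1 s = a ⊓ τ.1 s) → f a ⊓ G τ' = f a ⊓ G τ
  fo : ∀ (τ : TX IsLav A) (c : C) (a : A), a ≤ (prj f (G τ ⊓ cᶜ))ᶜ ↔ f a ⊓ G τ ≤ c
  fg : ∀ τ τ' : TX IsLav A, (prj f (G τ ⊓ (G τ')ᶜ))ᶜ = (TQ IsLav A).le τ τ'
  nm : ∀ F : List ℕ → Ult A → Prop, (∀ t, MeasurableSet {g | F t g}) →
    (∀ᶠ g in ae A, IsLav {t | F t g}) → ∃ τ : TX IsLav A, ∀ᶠ g in ae A, ∀ t, τ.1 t ∈ g ↔ F t g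

/-- The map `lpL`. -/
def lpa {A C : Type u} [CompleteBooleanAlgebra A] [CompleteBooleanAlgebra C] (f : A → C)
    (G : TX IsLav A → C) (t : List ℕ) (c : C) : A :=
  ⨆ τ : TX IsLav A, stL τ t ⊓ (prj f (G τ ⊓ cᶜ))ᶜ

section

variable {A C : Type u} [CompleteBooleanAlgebra A] [CompleteBooleanAlgebra C] {f : A → C}
  {G : TX IsLav A → C} {ND : List ℕ → C} (H : LavExt f G ND)

include H

theorem LavExt.bot : f ⊥ = ⊥ := (all_alg A C f H.ce).2.1
theorem LavExt.inf (a b : A) : f (a ⊓ b) = f a ⊓ f b := (all_alg A C f H.ce).2.2.1 a b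
theorem LavExt.le_iff {a b : A} : f a ≤ f b ↔ a ≤ b := (all_alg A C f H.ce).2.2.2.2.1 a b
theorem LavExt.pmono {a b : C} (h : a ≤ b) : prj f a ≤ prj f b :=
  (all_alg A C f H.ce).2.2.2.2.2.2.2.2.2.2.2.2.1 a b h
theorem LavExt.lin (c : C) (a : A) : prj f (c ⊓ f a) = prj f c ⊓ a :=
  (all_alg A C f H.ce).2.2.2.2.2.2.2.2.2.2.2.2.2.2.2.2.1 c a
theorem LavExt.pbot {c : C} : prj f c = ⊥ ↔ c = ⊥ :=
  (all_alg A C f H.ce).2.2.2.2.2.2.2.2.2.2.2.2.2.2.2.2.2.1 c

theorem LavExt.prjG (τ : TX IsLav A) (b : A) : prj f (f b ⊓ G τ) = b := by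
  rw [inf_comm, H.lin, H.pj, top_inf_eq]

theorem LavExt.le_of {τ : TX IsLav A} {a b : A} (h : f b ⊓ G τ ≤ f a) : b ≤ a := by
  have h1 := H.pmono h
  rw [H.prjG] at h1
  have h2 : prj f (f a) = a := by
    have := H.lin (⊤ : C) a
    rw [top_inf_eq] at this
    rw [this]
    have h3 : prj f (⊤ : C) = ⊤ := top_le_iff.1 ((H.pj τ) ▸ H.pmono le_top)
    rw [h3, top_inf_eq]
  rwa [h2] at h1

theorem LavExt.leT {σ τ : TX IsLav A} {a : A} : f a ⊓ G σ ≤ G τ ↔ a ≤ (TQ IsLav A).le σ τ := by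
  rw [← H.fg σ τ, H.fo]

/-- A stronger tree forces more. -/
theorem LavExt.force {σ τ : TX IsLav A} {b : A} {c : C} (h : b ≤ (TQ IsLav A).le σ τ)
    (hc : f b ⊓ G τ ≤ c) : f b ⊓ G σ ≤ c :=
  (le_inf inf_le_left (H.leT.2 h)).trans hc

theorem LavExt.le_lpa {τ : TX IsLav A} {t : List ℕ} {b : A} {c : C} (h : b ≤ stL τ t)
    (hc : f b ⊓ G τ ≤ c) : b ≤ lpa f G t c :=
  (le_inf h ((H.fo τ c b).2 hc)).trans
    (le_iSup (fun τ : TX IsLav A => stL τ t ⊓ (prj f (G τ ⊓ cᶜ))ᶜ) τ)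

theorem LavExt.lpa_mono {t : List ℕ} {c c' : C} (h : c ≤ c') : lpa f G t c ≤ lpa f G t c' := by
  refine iSup_le fun τ => H.le_lpa (τ := τ) inf_le_left ?_
  exact ((H.fo τ c _).1 inf_le_right).trans h

/-- The maximum principle. -/
theorem LavExt.mxp (disj : DisjStatement.{u}) (t : List ℕ) (c : C) : ∃ τ : TX IsLav A,
    lpa f G t c ≤ stL τ t ∧ f (lpa f G t c) ⊓ G τ ≤ c := by
  obtain ⟨b, b1, b2, b3⟩ := disj A (TX IsLav A)
    (fun τ : TX IsLav A => stL τ t ⊓ (prj f (G τ ⊓ cᶜ))ᶜ)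
  obtain ⟨τ', h'⟩ := H.mx (TX IsLav A) b (fun τ => τ) b2
  have e : lpa f G t c = ⨆ τ, b τ := b3.symm
  refine ⟨τ', ?_, ?_⟩
  · rw [e]
    refine iSup_le fun τ => le_of_ae ?_
    filter_upwards [mem_stL τ t, mem_stL τ' t] with g h1 h2 h3
    have h4 : stL τ t ∈ g := g.mono ((b1 τ).trans inf_le_left) h3
    have h5 : {s | τ'.1 s ∈ g} = {s | τ.1 s ∈ g} := by
      ext s
      have h6 : b τ ⊓ τ'.1 s ∈ g ↔ b τ ⊓ τ.1 s ∈ g := by rw [h']
      rw [g.mem_inf, g.mem_inf] at h6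
      simp only [Set.mem_ofPred_eq]
      tauto
    rw [h2, h5, ← h1]
    exact h4
  · rw [e, ← H.fo]
    refine iSup_le fun τ => ?_
    rw [H.fo, H.cg τ τ' (b τ) (h' τ), ← H.fo]
    exact (b1 τ).trans inf_le_right

/-- Property (3). -/
theorem LavExt.lim (disj : DisjStatement.{u}) (t : List ℕ) (c : C) :
    lpa f G t c = ⨅ m : ℕ, ⨆ k, ⨆ _ : m ≤ k, lpa f G (t ++ [k]) c := by
  apply le_antisymm
  · obtain ⟨τ, h1, h2⟩ := H.mxp disj t c
    have key : ∀ k, lpa f G t c ⊓ τ.1 (t ++ [k]) ≤ lpa f G (t ++ [k]) c := by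
      intro k
      obtain ⟨τ', r1, r2, r3, r4⟩ := H.rs τ (t ++ [k])
      refine H.le_lpa (τ := τ') (le_of_ae ?_) ?_
      · filter_upwards [mem_stL τ t, mem_stL τ' (t ++ [k]), mem_leT τ' τ] with g g1 g2 g3 g4
        rw [g.mem_inf] at g4
        have g5 := of_tst (g.mono r2 g4.2)
        have g6 := g1.1 (g.mono h1 g4.1)
        rw [g2]
        refine ⟨g5.1, g5.2, fun s hs hs' m => ?_⟩
        have hs2 : τ.1 s ∈ g := (g3.1 (g.mono r3 g4.2)) s hs'
        obtain ⟨j, hj, hj'⟩ := g6.spl s ((List.prefix_append _ _).trans hs) hs2 m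
        refine ⟨j, hj, ?_⟩
        have hc : Cmp (s ++ [j]) (t ++ [k]) := Or.inr (hs.trans (List.prefix_append _ _))
        have h3 : τ.1 (t ++ [k]) ⊓ ⨆ _ : Cmp (s ++ [j]) (t ++ [k]), τ.1 (s ++ [j]) ∈ g :=
          g.mem_inf.2 ⟨g4.2, g.mono (le_iSup (fun _ : Cmp (s ++ [j]) (t ++ [k]) =>
            τ.1 (s ++ [j])) hc) hj'⟩
        rw [← r4] at h3
        exact (g.mem_inf.1 h3).2
      · refine le_trans ?_ h2
        rw [H.inf]
        refine le_inf (inf_le_left.trans inf_le_left) ?_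
        exact (inf_le_inf_right _ inf_le_right).trans (H.leT.2 r3)
    refine le_iInf fun m => le_of_ae ?_
    filter_upwards [mem_stL τ t] with g g1 g2
    have g3 := g1.1 (g.mono h1 g2)
    obtain ⟨k, hk, hk'⟩ := g3.spl t List.prefix_rfl g3.mem m
    exact g.mono (le_iSup_of_le k (le_iSup_of_le hk (key k))) (g.mem_inf.2 ⟨g2, hk'⟩)
  · obtain ⟨a, ha⟩ : ∃ a : A, a = ⨅ m : ℕ, ⨆ k, ⨆ _ : m ≤ k, lpa f G (t ++ [k]) c := ⟨_, rfl⟩
    rw [← ha]
    choose σ hσ1 hσ2 using fun k => H.mxp disj (t ++ [k]) c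
    obtain ⟨τ0⟩ := H.ne
    -- the name of the union
    obtain ⟨F, hF⟩ : ∃ F : List ℕ → Ult A → Prop, ∀ s g, F s g ↔
        (a ∈ g ∧ ∃ k, lpa f G (t ++ [k]) c ∈ g ∧ (σ k).1 s ∈ g) ∨ (a ∉ g ∧ τ0.1 s ∈ g) :=
      ⟨fun s g => (a ∈ g ∧ ∃ k, lpa f G (t ++ [k]) c ∈ g ∧ (σ k).1 s ∈ g) ∨
        (a ∉ g ∧ τ0.1 s ∈ g), fun _ _ => Iff.rfl⟩
    have ev : ∀ᶠ g in ae A, a ∈ g ↔ ∀ m : ℕ, ∃ k, m ≤ k ∧ lpa f G (t ++ [k]) c ∈ g := by
      filter_upwards [ae_iInf fun m : ℕ => ⨆ k, ⨆ _ : m ≤ k, lpa f G (t ++ [k]) c,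
        ae_all fun m : ℕ => ae_iSup fun k => ⨆ _ : m ≤ k, lpa f G (t ++ [k]) c,
        ae_all fun m : ℕ => ae_all fun k : ℕ => ae_iSup fun _ : m ≤ k =>
          lpa f G (t ++ [k]) c] with g h1 h2 h3
      rw [ha, h1]
      refine forall_congr' fun m => ?_
      rw [h2]
      refine exists_congr fun k => ?_
      rw [h3]
      exact exists_prop
    have tree : ∀ᶠ g in ae A, (∀ k, lpa f G (t ++ [k]) c ∈ g →
        Stem {s | (σ k).1 s ∈ g} (t ++ [k])) := by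
      filter_upwards [ae_all fun k => mem_stL (σ k) (t ++ [k])] with g h1 k hk
      exact (h1 k).1 (g.mono (hσ1 k) hk)
    have stemF : ∀ᶠ g in ae A, a ∈ g → Stem {s | F s g} t := by
      filter_upwards [ev, tree, ae_all fun k => (σ k).2] with g h1 h2 h3 hag
      have e1 : {s | F s g} = {s | ∃ k, lpa f G (t ++ [k]) c ∈ g ∧ s ∈ {s | (σ k).1 s ∈ g}} := by
        ext s
        simp only [Set.mem_ofPred_eq, hF, hag, true_and, not_true_eq_false, false_and, or_false]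
      rw [e1]
      exact stem_union (T := fun k => {s | (σ k).1 s ∈ g})
        (K := fun k => lpa f G (t ++ [k]) c ∈ g) (fun k _ => (h3 k).pre) h2 (h1.1 hag)
    have lavF : ∀ᶠ g in ae A, IsLav {s | F s g} := by
      filter_upwards [stemF, ae_all fun k => (σ k).2, τ0.2] with g h1 h3 h4
      by_cases hag : a ∈ g
      · refine IsLav.of_stem (fun s s' hss hs' => ?_) (fun s hs => ?_) (h1 hag)
        · simp only [Set.mem_ofPred_eq, hF, hag, true_and, not_true_eq_false, false_and,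
            or_false] at hs' ⊢
          obtain ⟨k, hk, hk'⟩ := hs'
          exact ⟨k, hk, (h3 k).pre s s' hss hk'⟩
        · simp only [Set.mem_ofPred_eq, hF, hag, true_and, not_true_eq_false, false_and,
            or_false] at hs
          obtain ⟨k, hk, hk'⟩ := hs
          exact (h3 k).inc s hk'
      · have e1 : {s | F s g} = {s | τ0.1 s ∈ g} := by
          ext s
          simp only [Set.mem_ofPred_eq, hF, hag, false_and, not_false_eq_true, true_and, false_or]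
        rw [e1]
        exact h4
    obtain ⟨ρ, hρ⟩ := H.nm F (fun s => by
      have : Measurable fun g : Ult A => F s g := by
        have e1 : (fun g : Ult A => F s g) = fun g =>
            (a ∈ g ∧ ∃ k, lpa f G (t ++ [k]) c ∈ g ∧ (σ k).1 s ∈ g) ∨ (a ∉ g ∧ τ0.1 s ∈ g) := by
          funext g
          exact propext (hF s g)
        rw [e1]
        exact ((meas_mem a).and (Measurable.exists fun k =>
          (meas_mem _).and (meas_mem _))).or ((meas_mem a).not.and (meas_mem _))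
      exact measurableSet_setOfPred.2 this) lavF
    refine H.le_lpa (τ := ρ) (le_of_ae ?_) ?_
    · filter_upwards [hρ, stemF, mem_stL ρ t] with g h1 h2 h3 hag
      rw [h3]
      have e1 : {s | ρ.1 s ∈ g} = {s | F s g} := by
        ext s
        exact h1 s
      rw [e1]
      exact h2 hag
    · by_contra hcon
      have h1 : f a ⊓ G ρ ⊓ cᶜ ≠ ⊥ := by
        intro h2
        apply hcon
        rw [← compl_compl c, le_compl_iff_disjoint_right, disjoint_iff]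
        exact h2
      obtain ⟨b, π, hb, hπ⟩ := H.de _ h1
      have b1 : b ≤ a := H.le_of (hπ.trans (inf_le_left.trans inf_le_left))
      have b2 : b ≤ (TQ IsLav A).le π ρ := H.leT.1 (hπ.trans (inf_le_left.trans inf_le_right))
      have b3 : b ≤ ⨆ k, π.1 (t ++ [k]) := by
        refine le_of_ae ?_
        filter_upwards [ae_iSup fun k => π.1 (t ++ [k]), mem_leT π ρ, hρ, stemF, π.2] with g g1 g2
          g3 g4 g5 hbg
        rw [g1]
        refine exists_snoc (T := {s | π.1 s ∈ g}) g5 H.fam fun s hs => ?_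
        exact (g4 (g.mono b1 hbg)).cmp s ((g3 s).1 (g2.1 (g.mono b2 hbg) s hs))
      have b4 : ∃ k, b ⊓ π.1 (t ++ [k]) ≠ ⊥ := by
        by_contra hcon
        push Not at hcon
        apply hb
        rw [← inf_eq_left.2 b3, inf_iSup_eq, iSup_eq_bot]
        exact hcon
      obtain ⟨k, hk⟩ := b4
      obtain ⟨π', r1, r2, r3, r4⟩ := H.rs π (t ++ [k])
      have b5 : b ⊓ π.1 (t ++ [k]) ≤ lpa f G (t ++ [k]) c ⊓ (TQ IsLav A).le π' (σ k) := by
        refine le_of_ae ?_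
        filter_upwards [mem_leT π ρ, mem_leT π' π, mem_leT π' (σ k), hρ, tree,
          ae_all fun k => (σ k).2] with g g1 g2 g3 g4 g5 g6 g7
        rw [g.mem_inf] at g7
        have ha' : a ∈ g := g.mono b1 g7.1
        -- nodes of `π` comparable with `t ++ [k]` are in `σ k`
        have key : ∀ s, π.1 s ∈ g → Cmp s (t ++ [k]) → t ++ [k] <+: s →
            lpa f G (t ++ [k]) c ∈ g ∧ (σ k).1 s ∈ g := by
          intro s hs _ hts
          have h2 := (g4 s).1 (g1.1 (g.mono b2 g7.1) s hs)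
          rw [hF] at h2
          rcases h2 with ⟨-, k', hk', hs'⟩ | ⟨h2, -⟩
          · have h3 : Cmp s (t ++ [k']) := (g5 k' hk').cmp s hs'
            have h4 : k = k' := by
              rcases h3 with h3 | h3
              · exact snoc_cmp (Or.inl (hts.trans h3))
              · exact snoc_inj hts h3
            subst h4
            exact ⟨hk', hs'⟩
          · exact absurd ha' h2
        have hk0 := key (t ++ [k]) g7.2 (Or.inl List.prefix_rfl) List.prefix_rfl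
        rw [g.mem_inf, g3]
        refine ⟨hk0.1, fun s hs => ?_⟩
        have hs1 : π.1 s ∈ g := g2.1 (g.mono r3 g7.2) s hs
        have hs2 : Cmp s (t ++ [k]) := (of_tst (g.mono r2 g7.2)).2 s hs
        rcases hs2 with h2 | h2
        · exact (g6 k).pre s _ h2 hk0.2
        · exact (key s hs1 (Or.inr h2) h2).2
      have b6 : f (b ⊓ π.1 (t ++ [k])) ⊓ G π' ≤ c := by
        refine H.force (b5.trans inf_le_right) ?_
        exact (inf_le_inf_right _ (H.le_iff.2 (b5.trans inf_le_left))).trans (hσ2 k)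
      have b7 : f (b ⊓ π.1 (t ++ [k])) ⊓ G π' ≤ cᶜ := by
        refine le_trans ?_ (hπ.trans inf_le_right)
        rw [H.inf]
        refine le_inf (inf_le_left.trans inf_le_left) ?_
        exact (inf_le_inf_right _ inf_le_right).trans (H.leT.2 r3)
      have b8 : f (b ⊓ π.1 (t ++ [k])) ⊓ G π' = ⊥ := by
        rw [← le_bot_iff, ← inf_compl_self c]
        exact le_inf b6 b7
      apply hk
      rw [← H.prjG π' (b ⊓ π.1 (t ++ [k])), H.pbot]
      exact b8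

/-- Property (4). -/
theorem LavExt.nodes (t : List ℕ) (c : C) : lpa f G t c = lpa f G t (c ⊓ ND t) := by
  refine le_antisymm (iSup_le fun τ => H.le_lpa (τ := τ) inf_le_left ?_)
    (H.lpa_mono inf_le_left)
  refine le_inf ((H.fo τ c _).1 inf_le_right) ?_
  refine le_trans ?_ (H.nd τ t)
  exact inf_le_inf_right _ (H.le_iff.2 (inf_le_left.trans inf_le_left))

/-- Property (5). -/
theorem LavExt.tree (t : List ℕ) (τ : TX IsLav A) : lpa f G t (G τ) ≤ τ.1 t := by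
  refine iSup_le fun σ => ?_
  rw [H.fg]
  refine le_of_ae ?_
  filter_upwards [mem_stL σ t, mem_leT σ τ] with g h1 h2 h3
  rw [g.mem_inf, h1, h2] at h3
  exact h3.2 t h3.1.mem

/-- Property (6). -/
theorem LavExt.inc (t : List ℕ) (c : C) (ht : ¬ Inc t) : lpa f G t c = ⊥ := by
  rw [← le_bot_iff]
  refine iSup_le fun σ => le_of_ae ?_
  filter_upwards [mem_stL σ t, σ.2] with g h1 h2 h3
  rw [g.mem_inf, h1] at h3
  exact absurd (h2.inc t h3.1.mem) ht

/-- Conditions have a stem. -/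
theorem LavExt.stems (τ : TX IsLav A) : (⊤ : A) ≤ ⨆ s, stL τ s := by
  refine le_of_ae ?_
  filter_upwards [ae_iSup fun s => stL τ s, ae_all fun s => mem_stL τ s, τ.2] with g h1 h2 h3 _
  rw [h1]
  obtain ⟨s, hs, hc, hi⟩ := h3.stem
  exact ⟨s, (h2 s).2 ⟨hs, hc, fun s' h h' => hi s' h' h⟩⟩

/-- Property (2). -/
theorem LavExt.sup_lpa (c : C) : prj f c = ⨆ t, lpa f G t c := by
  apply le_antisymm
  · by_contra hcon
    have h1 : prj f c ⊓ (⨆ t, lpa f G t c)ᶜ ≠ ⊥ := by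
      intro h2
      apply hcon
      rw [← compl_compl (⨆ t, lpa f G t c), le_compl_iff_disjoint_right, disjoint_iff]
      exact h2
    rw [← H.lin] at h1
    have h2 : c ⊓ f (⨆ t, lpa f G t c)ᶜ ≠ ⊥ := fun h3 => h1 (H.pbot.2 h3)
    obtain ⟨b, τ, hb, h3⟩ := H.de _ h2
    have h4 : b ≤ (⨆ t, lpa f G t c)ᶜ := H.le_of (h3.trans inf_le_right)
    have h5 : b ≤ ⨆ t, lpa f G t c := by
      have h6 : b ≤ ⨆ s, b ⊓ stL τ s := by
        rw [← inf_iSup_eq]
        exact le_inf le_rfl (le_top.trans (H.stems τ))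
      refine h6.trans (iSup_mono fun s => H.le_lpa (τ := τ) inf_le_right ?_)
      exact (inf_le_inf_right _ (H.le_iff.2 inf_le_left)).trans (h3.trans inf_le_left)
    apply hb
    rw [← le_bot_iff, ← inf_compl_self (⨆ t, lpa f G t c)]
    exact le_inf h5 h4
  · refine iSup_le fun t => iSup_le fun τ => ?_
    have h1 := H.pmono ((H.fo τ c _).1 (inf_le_right (a := stL τ t)))
    rwa [H.prjG] at h1

theorem LavExt.lpa_lin (t : List ℕ) (c : C) (a : A) :
    lpa f G t (c ⊓ f a) = lpa f G t c ⊓ a := by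
  unfold lpa
  rw [iSup_inf_eq]
  refine iSup_congr fun τ => ?_
  rw [inf_assoc]
  congr 1
  refine eq_of_forall_le_iff fun b => ?_
  rw [H.fo, le_inf_iff, le_inf_iff, H.fo]
  refine and_congr_right fun _ => ⟨H.le_of, fun h => ?_⟩
  exact inf_le_left.trans (H.le_iff.2 h)

/-- Pure decision. -/
theorem LavExt.lpa_sup (disj : DisjStatement.{u}) (t : List ℕ) (c c' : C) :
    lpa f G t (c ⊔ c') = lpa f G t c ⊔ lpa f G t c' := by
  refine le_antisymm ?_ (sup_le (H.lpa_mono le_sup_left) (H.lpa_mono le_sup_right))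
  by_contra hcon
  obtain ⟨a, ha⟩ : ∃ a : A, a = lpa f G t (c ⊔ c') ⊓ (lpa f G t c ⊔ lpa f G t c')ᶜ := ⟨_, rfl⟩
  have ha0 : a ≠ ⊥ := by
    intro h2
    apply hcon
    rw [← compl_compl (lpa f G t c ⊔ lpa f G t c'), le_compl_iff_disjoint_right, disjoint_iff,
      ← ha]
    exact h2
  obtain ⟨τ, h1, h2⟩ := H.mxp disj t (c ⊔ c')
  have a1 : a ≤ lpa f G t (c ⊔ c') := ha ▸ inf_le_left
  have ev : ∀ c : C, ∀ᶠ g in ae A, ∀ s, lpa f G s c ∈ g ↔
      ∀ m : ℕ, ∃ k, m ≤ k ∧ lpa f G (s ++ [k]) c ∈ g := by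
    intro c
    filter_upwards [ae_all fun s : List ℕ => ae_iInf fun m : ℕ => ⨆ k, ⨆ _ : m ≤ k,
        lpa f G (s ++ [k]) c,
      ae_all fun s : List ℕ => ae_all fun m : ℕ => ae_iSup fun k => ⨆ _ : m ≤ k,
        lpa f G (s ++ [k]) c,
      ae_all fun s : List ℕ => ae_all fun m : ℕ => ae_all fun k : ℕ => ae_iSup fun _ : m ≤ k =>
        lpa f G (s ++ [k]) c] with g h1 h2 h3 s
    rw [H.lim disj s c, h1]
    refine forall_congr' fun m => ?_
    rw [h2]
    refine exists_congr fun k => ?_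
    rw [h3]
    exact exists_prop
  -- the subtree of bad nodes
  obtain ⟨P, hP⟩ : ∃ P : List ℕ → Ult A → Prop, ∀ s g, P s g ↔
      lpa f G s c ∉ g ∧ lpa f G s c' ∉ g := ⟨fun s g => lpa f G s c ∉ g ∧ lpa f G s c' ∉ g,
        fun _ _ => Iff.rfl⟩
  obtain ⟨F, hF⟩ : ∃ F : List ℕ → Ult A → Prop, ∀ s g, F s g ↔
      (a ∈ g ∧ τ.1 s ∈ g ∧ ∀ s', t <+: s' → s' <+: s → P s' g) ∨ (a ∉ g ∧ τ.1 s ∈ g) :=
    ⟨fun s g => (a ∈ g ∧ τ.1 s ∈ g ∧ ∀ s', t <+: s' → s' <+: s → P s' g) ∨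
      (a ∉ g ∧ τ.1 s ∈ g), fun _ _ => Iff.rfl⟩
  have stemF : ∀ᶠ g in ae A, a ∈ g → Stem {s | F s g} t := by
    filter_upwards [ev c, ev c', mem_stL τ t] with g g1 g2 g3 hag
    have e1 : {s | F s g} = {s | s ∈ {s | τ.1 s ∈ g} ∧ ∀ s', t <+: s' → s' <+: s → P s' g} := by
      ext s
      simp only [Set.mem_ofPred_eq, hF, hag, true_and, not_true_eq_false, false_and, or_false]
    rw [e1]
    refine stem_sub (P := fun s => P s g) (g3.1 (g.mono (a1.trans h1) hag)) ?_ ?_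
    · have h3 : (lpa f G t c ⊔ lpa f G t c')ᶜ ∈ g := g.mono (ha ▸ inf_le_right) hag
      rw [g.mem_compl, g.mem_sup] at h3
      push Not at h3
      exact (hP t g).2 h3
    · intro s hs
      obtain ⟨p1, p2⟩ := (hP s g).1 hs
      rw [g1 s] at p1
      rw [g2 s] at p2
      push Not at p1 p2
      obtain ⟨m1, q1⟩ := p1
      obtain ⟨m2, q2⟩ := p2
      refine ⟨max m1 m2, fun k hk => (hP _ g).2 ⟨q1 k ((le_max_left _ _).trans hk),
        q2 k ((le_max_right _ _).trans hk)⟩⟩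
  have lavF : ∀ᶠ g in ae A, IsLav {s | F s g} := by
    filter_upwards [stemF, τ.2] with g h3 h4
    by_cases hag : a ∈ g
    · refine IsLav.of_stem (fun s s' hss hs' => ?_) (fun s hs => ?_) (h3 hag)
      · simp only [Set.mem_ofPred_eq, hF, hag, true_and, not_true_eq_false, false_and,
          or_false] at hs' ⊢
        exact ⟨h4.pre s s' hss hs'.1, fun s'' p q => hs'.2 s'' p (q.trans hss)⟩
      · simp only [Set.mem_ofPred_eq, hF, hag, true_and, not_true_eq_false, false_and,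
          or_false] at hs
        exact h4.inc s hs.1
    · have e1 : {s | F s g} = {s | τ.1 s ∈ g} := by
        ext s
        simp only [Set.mem_ofPred_eq, hF, hag, false_and, not_false_eq_true, true_and, false_or]
      rw [e1]
      exact h4
  obtain ⟨ρ, hρ⟩ := H.nm F (fun s => by
    have : Measurable fun g : Ult A => F s g := by
      have e1 : (fun g : Ult A => F s g) = fun g =>
          (a ∈ g ∧ τ.1 s ∈ g ∧ ∀ s', t <+: s' → s' <+: s →
            lpa f G s' c ∉ g ∧ lpa f G s' c' ∉ g) ∨ (a ∉ g ∧ τ.1 s ∈ g) := by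
        funext g
        refine propext ((hF s g).trans ?_)
        simp only [hP]
      rw [e1]
      refine ((meas_mem a).and ((meas_mem _).and (Measurable.forall fun s' => ?_))).or
        ((meas_mem a).not.and (meas_mem _))
      exact measurable_const.imp (measurable_const.imp ((meas_mem _).not.and (meas_mem _).not))
    exact measurableSet_setOfPred.2 this) lavF
  have r1 : a ≤ (TQ IsLav A).le ρ τ := by
    refine le_of_ae ?_
    filter_upwards [mem_leT ρ τ, hρ] with g g1 g2 hag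
    rw [g1]
    intro s hs
    have h3 := (hF s g).1 ((g2 s).1 hs)
    rcases h3 with h3 | h3
    · exact h3.2.1
    · exact h3.2
  have r2 : f a ⊓ G ρ ≤ c ⊔ c' :=
    H.force r1 ((inf_le_inf_right _ (H.le_iff.2 a1)).trans h2)
  -- one of the two is compatible
  have key : ∀ c1 : C, (∀ g : Ult A, ∀ s, P s g → lpa f G s c1 ∉ g) →
      f a ⊓ G ρ ⊓ c1 = ⊥ := by
    intro c1 hc1
    by_contra hcon
    obtain ⟨b, σ, hb, h3⟩ := H.de _ hcon
    have b1 : b ≤ a := H.le_of (h3.trans (inf_le_left.trans inf_le_left))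
    have b2 : b ≤ (TQ IsLav A).le σ ρ := H.leT.1 (h3.trans (inf_le_left.trans inf_le_right))
    have b3 : f b ⊓ G σ ≤ c1 := h3.trans inf_le_right
    have b4 : ∃ s, b ⊓ stL σ s ≠ ⊥ := by
      by_contra hcon
      push Not at hcon
      apply hb
      rw [← inf_eq_left.2 (le_top.trans (H.stems σ) : b ≤ ⨆ s, stL σ s), inf_iSup_eq,
        iSup_eq_bot]
      exact hcon
    obtain ⟨s, hs⟩ := b4
    have b5 : b ⊓ stL σ s ≤ lpa f G s c1 := H.le_lpa (τ := σ) inf_le_right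
      ((inf_le_inf_right _ (H.le_iff.2 inf_le_left)).trans b3)
    obtain ⟨g, g1, g2, g3, g4, g5, g6⟩ := exists_of_ae
      ((mem_leT σ ρ).and ((mem_stL σ s).and (hρ.and (stemF.and (Filter.Eventually.of_forall
        fun g => (trivial : True)))))) hs
    have hbg := g.mem_inf.1 g1
    have hst := g3.1 hbg.2
    have hsub : ∀ s, σ.1 s ∈ g → F s g := fun s hs' =>
      (g4 s).1 (g2.1 (g.mono b2 hbg.1) s hs')
    have hag : a ∈ g := g.mono b1 hbg.1
    have hT := g5 hag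
    have hFs : F s g := hsub s hst.mem
    have hts : t <+: s := by
      rcases hT.cmp s hFs with h4 | h4
      · by_cases hne : s = t
        · exact hne ▸ List.prefix_rfl
        · exfalso
          obtain ⟨k0, -, hk0⟩ := hst.spl s List.prefix_rfl hst.mem 0
          obtain ⟨k1, hk1, hk1'⟩ := hst.spl s List.prefix_rfl hst.mem (k0 + 1)
          have e0 := snoc_le_of_cmp h4 hne (hT.cmp _ (hsub _ hk0))
          have e1 := snoc_le_of_cmp h4 hne (hT.cmp _ (hsub _ hk1'))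
          have := snoc_inj e0 e1
          omega
      · exact h4
    rcases (hF s g).1 hFs with h5 | h5
    · exact hc1 g s (h5.2.2 s hts List.prefix_rfl) (g.mono b5 g1)
    · exact h5.1 hag
  apply ha0
  rw [← H.prjG ρ a, H.pbot, ← le_bot_iff]
  calc f a ⊓ G ρ ≤ f a ⊓ G ρ ⊓ (c ⊔ c') := le_inf le_rfl r2
    _ = (f a ⊓ G ρ ⊓ c) ⊔ (f a ⊓ G ρ ⊓ c') := inf_sup_left _ _ _
    _ = ⊥ := by
      rw [key c fun g s h => ((hP s g).1 h).1, key c' fun g s h => ((hP s g).1 h).2, sup_idem]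
    _ ≤ ⊥ := le_rfl

end

/-- The extension by Laver forcing. -/
theorem lavExt (gnd : GndStatement.{u}) (gmx : GmxStatement.{u}) (fam : FamStatement)
    (A : Type u) [CompleteBooleanAlgebra A] :
    LavExt (tE IsLav A) (tG (𝒯 := IsLav) (A := A)) (fun t => tND t) := by
  obtain ⟨g1, -, -, -, -, -, -, g8⟩ := gnd IsLav fam.2.1 A
  obtain ⟨m1, m2, m3, m4, m5, m6, m7, m8⟩ := gmx IsLav fam.2.1 A
  exact ⟨fam.2.1, (all_tw1 A (TX IsLav A) (TQ IsLav A)).1, g1, g8, m1, m2, m3, m4, m5, m6, m7,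
    m8⟩

/-- Module LPL. -/
theorem lpl (gnd : GndStatement.{u}) (gmx : GmxStatement.{u}) (fam : FamStatement)
    (disj : DisjStatement.{u}) : LplStatement.{u} := by
  intro A _
  have H := lavExt gnd gmx fam A
  refine ⟨fun t => ⟨H.lpa_sup disj t, H.lpa_lin t⟩, H.sup_lpa, H.lim disj, H.nodes, H.tree,
    H.inc, fun t c => ?_⟩
  obtain ⟨τ, h1, h2⟩ := H.mxp disj t c
  exact ⟨τ, le_inf h1 ((H.fo τ c _).2 h2)⟩

end Pool.Agent.Lib.MP_a78e1f_lc.H76
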