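import Pool.Agent.Lib.MP_a78e1f_lc.H76.Lpl

/-!
# Trees of paths: combinatorics (for every family of trees)
-/

set_option autoImplicit false
set_option linter.unusedSectionVars false

universe u v w

open Cardinal Filter MeasureTheory

namespace Pool.Agent.Lib.MP_a78e1f_lc.H76

open Pool.Agent.Lib.MP_100a6c_lc
open Pool.Agent.Lib.MP_e6fef2_lc
open Pool.Agent.Lib.MP_6d445e_gt

/-! ## Lists -/

theorem cmp_of_prefix {t t' s s' : List ℕ} (h : t <+: s) (h' : t' <+: s') (hc : Cmp s s') :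
    Cmp t t' := by
  rcases hc with hc | hc
  · exact (List.prefix_or_prefix_of_prefix (h.trans hc) h')
  · exact (List.prefix_or_prefix_of_prefix h (h'.trans hc))

theorem cmp_of_common {t t' s : List ℕ} (h : t <+: s) (h' : t' <+: s) : Cmp t t' :=
  List.prefix_or_prefix_of_prefix h h'

theorem not_snoc_self {t : List ℕ} {l : ℕ} : ¬ t ++ [l] <+: t := by
  intro h
  have := h.length_le
  simp at this

/-! ## Families -/

theorem fam_long {𝒯 : Set (List ℕ) → Prop} (hT : TFam 𝒯) {T : Set (List ℕ)} (h : 𝒯 T)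
    {t : List ℕ} (ht : t ∈ T) : ∀ N : ℕ, ∃ t', t <+: t' ∧ t' ∈ T ∧ N ≤ t'.length
  | 0 => ⟨t, List.prefix_rfl, ht, Nat.zero_le _⟩
  | N + 1 => by
    obtain ⟨t', h1, h2, h3⟩ := fam_long hT h ht N
    obtain ⟨k, hk⟩ := hT.ext T h t' h2
    refine ⟨t' ++ [k], h1.trans (List.prefix_append _ _), hk, ?_⟩
    simp only [List.length_append, List.length_singleton]
    omega

/-- If all nodes above a node of the tree are comparable with `t0`, then `t0` is in the tree. -/
theorem fam_mem {𝒯 : Set (List ℕ) → Prop} (hT : TFam 𝒯) {T : Set (List ℕ)} (h : 𝒯 T)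
    {t t0 : List ℕ} (ht : t ∈ T) (hc : ∀ t' ∈ T, t <+: t' → Cmp t' t0) : t0 ∈ T := by
  obtain ⟨t', h1, h2, h3⟩ := fam_long hT h ht t0.length
  rcases hc t' h2 h1 with h4 | h4
  · have := h4.eq_of_length (le_antisymm h4.length_le h3)
    exact this ▸ h2
  · exact hT.pre T h _ _ h4 h2

/-! ## Paths -/

/-- The tree of the nodes of paths. -/
def TP {A : Type u} [CompleteBooleanAlgebra A] {X : Type u} (nd : X → List ℕ) (P : List X → A)
    (g : Ult A) : Set (List ℕ) := {t | ∃ s ρ, P (s :: ρ) ∈ g ∧ t <+: nd s}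

/-- A tree of paths at an ultrafilter, with what follows from the hypotheses on states. -/
structure PT {A : Type u} [CompleteBooleanAlgebra A] {X : Type u} (ok : List ℕ → List ℕ → Prop)
    (nd : X → List ℕ) (ed : ℕ → X → X → A) (s0 : X) (P : List X → A) (g : Ult A) : Prop where
  ptr : PTr ok nd ed s0 P g
  pre : ∀ t t', ok t t' → t <+: t'
  chd : ∀ s' s π, P (s' :: s :: π) ∈ g → ∃ l, ok (nd s ++ [l]) (nd s')
  inc : ∀ s ρ, P (s :: ρ) ∈ g → Inc (nd s)

section

variable {A : Type u} [CompleteBooleanAlgebra A] {X : Type u} {ok : List ℕ → List ℕ → Prop}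
  {nd : X → List ℕ} {ed : ℕ → X → X → A} {s0 : X} {P : List X → A} {g : Ult A}
  (H : PT ok nd ed s0 P g)

include H

theorem PT.snoc {s' s : X} {π : List X} (h : P (s' :: s :: π) ∈ g) :
    ∃ l, nd s ++ [l] <+: nd s' := by
  obtain ⟨l, hl⟩ := H.chd _ _ _ h
  exact ⟨l, H.pre _ _ hl⟩

theorem PT.nil : P [] ∉ g := by
  intro h
  obtain ⟨ρ, hρ⟩ := H.ptr.last _ h
  simp at hρ

theorem PT.single {s : X} (h : P [s] ∈ g) : s = s0 := by
  obtain ⟨ρ, hρ⟩ := H.ptr.last _ h
  cases ρ with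
  | nil => simpa using hρ
  | cons a ρ => simp at hρ

theorem PT.suffix : ∀ {π ρ : List X}, P π ∈ g → ρ <:+ π → ρ ≠ [] → P ρ ∈ g
  | [], ρ, h, h1, h2 => (h2 (List.suffix_nil.1 h1)).elim
  | [s], ρ, h, h1, h2 => by
    rcases List.suffix_cons_iff.1 h1 with h3 | h3
    · exact h3 ▸ h
    · exact (h2 (List.suffix_nil.1 h3)).elim
  | s' :: s :: π, ρ, h, h1, h2 => by
    rcases List.suffix_cons_iff.1 h1 with h3 | h3
    · exact h3 ▸ h
    · exact PT.suffix (H.ptr.step _ _ _ h).1 h3 h2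

/-- Suffixes of paths have shorter nodes. -/
theorem PT.mono' : ∀ {ρ : List X} {s r : X} {σ : List X}, P (s :: ρ) ∈ g →
    r :: σ <:+ s :: ρ → r :: σ = s :: ρ ∨ ∃ l, nd r ++ [l] <+: nd s
  | [], s, r, σ, h, h1 => by
    rcases List.suffix_cons_iff.1 h1 with h3 | h3
    · exact Or.inl h3
    · exact absurd (List.suffix_nil.1 h3) (by simp)
  | s' :: ρ, s, r, σ, h, h1 => by
    rcases List.suffix_cons_iff.1 h1 with h3 | h3
    · exact Or.inl h3
    · obtain ⟨l, hl⟩ := H.snoc h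
      rcases PT.mono' (H.ptr.step _ _ _ h).1 h3 with h4 | ⟨l', hl'⟩
      · simp only [List.cons.injEq] at h4
        rw [h4.1]
        exact Or.inr ⟨l, hl⟩
      · exact Or.inr ⟨l', hl'.trans ((List.prefix_append _ _).trans hl)⟩

theorem PT.mono {ρ : List X} {s r : X} {σ : List X} (h : P (s :: ρ) ∈ g)
    (h1 : r :: σ <:+ s :: ρ) : nd r <+: nd s := by
  rcases H.mono' h h1 with h2 | ⟨l, hl⟩
  · simp only [List.cons.injEq] at h2
    rw [h2.1]
  · exact (List.prefix_append _ _).trans hl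

/-- Paths of the same length with comparable nodes are equal. -/
theorem PT.inj : ∀ {ρ ρ' : List X} {s s' : X}, P (s :: ρ) ∈ g → P (s' :: ρ') ∈ g →
    ρ.length = ρ'.length → Cmp (nd s) (nd s') → s :: ρ = s' :: ρ'
  | [], [], s, s', h, h', _, _ => by rw [H.single h, H.single h']
  | [], _ :: _, _, _, _, _, hl, _ => by simp at hl
  | _ :: _, [], _, _, _, _, hl, _ => by simp at hl
  | r :: ρ, r' :: ρ', s, s', h, h', hl, hc => by
    obtain ⟨l, h1⟩ := H.snoc h
    obtain ⟨l', h1'⟩ := H.snoc h'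
    have h2 := PT.inj (H.ptr.step _ _ _ h).1 (H.ptr.step _ _ _ h').1 (by simpa using hl)
      (cmp_of_prefix ((List.prefix_append _ _).trans h1) ((List.prefix_append _ _).trans h1') hc)
    simp only [List.cons.injEq] at h2
    obtain ⟨rfl, rfl⟩ := h2
    have h3 : l = l' := by
      rcases hc with hc | hc
      · exact snoc_inj (h1.trans hc) h1'
      · exact snoc_inj h1 (h1'.trans hc)
    subst h3
    rw [H.ptr.uniq _ _ _ _ _ h h' h1 h1']

omit H in
theorem anc : ∀ {ρ : List X} {s : X} {n : ℕ}, n ≤ ρ.length → ∃ r σ, σ.length = n ∧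
    r :: σ <:+ s :: ρ
  | [], s, n, hn => ⟨s, [], by simpa using hn.antisymm (Nat.zero_le _) |>.symm, List.suffix_rfl⟩
  | s' :: ρ, s, n, hn => by
    rcases Nat.lt_or_ge ρ.length n with h | h
    · refine ⟨s, s' :: ρ, ?_, List.suffix_rfl⟩
      simp only [List.length_cons] at hn ⊢
      omega
    · obtain ⟨r, σ, h1, h2⟩ := anc (s := s') h
      exact ⟨r, σ, h1, h2.trans (List.suffix_cons _ _)⟩

/-- The ancestor. -/
theorem PT.anc {ρ : List X} {s : X} (h : P (s :: ρ) ∈ g) {n : ℕ} (hn : n ≤ ρ.length) :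
    ∃ r σ, σ.length = n ∧ r :: σ <:+ s :: ρ ∧ P (r :: σ) ∈ g ∧ nd r <+: nd s := by
  obtain ⟨r, σ, h1, h2⟩ := H76.anc (s := s) hn
  exact ⟨r, σ, h1, h2, H.suffix h h2 (by simp), H.mono h h2⟩

/-- Comparable nodes: the path to the shorter one is a suffix. -/
theorem PT.suffix_of {ρ σ : List X} {s r : X} (h : P (s :: ρ) ∈ g) (h' : P (r :: σ) ∈ g)
    (hc : Cmp (nd s) (nd r)) (hl : σ.length ≤ ρ.length) : r :: σ <:+ s :: ρ := by
  obtain ⟨q, κ, h1, h2, h3, h4⟩ := H.anc h hl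
  have h5 := H.inj h3 h' h1 (cmp_of_prefix h4 List.prefix_rfl hc)
  exact h5 ▸ h2

/-- Paths with a node above a successor of the last node of a path. -/
theorem PT.above {ρ σ : List X} {s r : X} {l : ℕ} (h : P (s :: ρ) ∈ g) (h' : P (r :: σ) ∈ g)
    (hp : nd s ++ [l] <+: nd r) : ∃ s', P (s' :: s :: ρ) ∈ g ∧ nd s ++ [l] <+: nd s' ∧
      nd s' <+: nd r := by
  rcases Nat.lt_or_ge ρ.length σ.length with hl | hl
  · obtain ⟨s', κ, h1, h2, h3, h4⟩ := H.anc h' (n := ρ.length + 1) hl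
    cases κ with
    | nil => simp at h1
    | cons q κ =>
      have h5 := (H.ptr.step _ _ _ h3).1
      obtain ⟨l', hl'⟩ := H.snoc h3
      have h6 := H.inj h5 h (by simpa using h1) (cmp_of_common
        (((List.prefix_append _ _).trans hl').trans h4) ((List.prefix_append _ _).trans hp))
      simp only [List.cons.injEq] at h6
      obtain ⟨rfl, rfl⟩ := h6
      have h7 := snoc_inj (hl'.trans h4) hp
      subst h7
      exact ⟨s', h3, hl', h4⟩
  · exfalso
    have h1 := H.suffix_of h h' (Or.inl ((List.prefix_append _ _).trans hp)) hl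
    exact not_snoc_self (hp.trans (H.mono h h1))

theorem PT.root_cmp {t : List ℕ} (ht : t ∈ TP nd P g) : Cmp t (nd s0) := by
  obtain ⟨s, ρ, h, h1⟩ := ht
  obtain ⟨κ, hκ⟩ := H.ptr.last _ h
  exact cmp_of_common h1 (H.mono h ⟨κ, hκ.symm⟩)

theorem PT.cmp {ρ : List X} {s s' : X} {l : ℕ} (h : P (s' :: s :: ρ) ∈ g)
    (hl : nd s ++ [l] <+: nd s') {t : List ℕ} (ht : t ∈ TP nd P g)
    (hc : Cmp t (nd s ++ [l])) : Cmp t (nd s') := by
  rcases hc with hc | hc
  · exact Or.inl (hc.trans hl)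
  · obtain ⟨r, σ, h1, h2⟩ := ht
    obtain ⟨s'', h3, h4, h5⟩ := H.above (H.ptr.step _ _ _ h).1 h1 (hc.trans h2)
    have h6 := H.ptr.uniq _ _ _ _ _ h h3 hl h4
    subst h6
    exact cmp_of_common h2 h5

/-- Nodes comparable with the node of a path are below it, or below the node of a longer path. -/
theorem PT.cases {ρ : List X} {s : X} (h : P (s :: ρ) ∈ g) {t : List ℕ} (ht : t ∈ TP nd P g)
    (hc : Cmp t (nd s)) :
    ∃ r σ, P (r :: σ) ∈ g ∧ s :: ρ <:+ r :: σ ∧ t <+: nd r := by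
  rcases hc with hc | hc
  · exact ⟨s, ρ, h, List.suffix_rfl, hc⟩
  · obtain ⟨r, σ, h1, h2⟩ := ht
    rcases Nat.le_total ρ.length σ.length with hl | hl
    · exact ⟨r, σ, h1, H.suffix_of h1 h (Or.inr (hc.trans h2)) hl, h2⟩
    · have h3 := H.suffix_of h h1 (Or.inl (hc.trans h2)) hl
      exact ⟨s, ρ, h, List.suffix_rfl, h2.trans (H.mono h h3)⟩

/-- Subtrees contain the next node. -/
theorem PT.next {𝒯 : Set (List ℕ) → Prop} (hT : TFam 𝒯) {T : Set (List ℕ)} (h𝒯 : 𝒯 T)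
    (hsub : T ⊆ TP nd P g) {ρ : List X} {s : X} (h : P (s :: ρ) ∈ g) {k : ℕ}
    (hk : nd s ++ [k] ∈ T) : ∃ s', P (s' :: s :: ρ) ∈ g ∧ nd s ++ [k] <+: nd s' ∧ nd s' ∈ T := by
  obtain ⟨r, σ, h1, h2⟩ := hsub hk
  obtain ⟨s', h3, h4, h5⟩ := H.above h h1 h2
  refine ⟨s', h3, h4, fam_mem hT h𝒯 hk fun t' ht' hp => ?_⟩
  exact H.cmp h3 h4 (hsub ht') (Or.inr hp)

/-- Subtrees contain nodes of paths of every length. -/
theorem PT.level {𝒯 : Set (List ℕ) → Prop} (hT : TFam 𝒯) {T : Set (List ℕ)} (h𝒯 : 𝒯 T)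
    (hsub : T ⊆ TP nd P g) : ∀ n : ℕ, ∃ s ρ, ρ.length = n ∧ P (s :: ρ) ∈ g ∧ nd s ∈ T
  | 0 => by
    refine ⟨s0, [], rfl, H.ptr.root, ?_⟩
    exact fam_mem hT h𝒯 (hT.nil T h𝒯) fun t' ht' _ => H.root_cmp (hsub ht')
  | n + 1 => by
    obtain ⟨s, ρ, h1, h2, h3⟩ := PT.level hT h𝒯 hsub n
    obtain ⟨k, hk⟩ := hT.ext T h𝒯 _ h3
    obtain ⟨s', h4, -, h5⟩ := H.next hT h𝒯 hsub h2 hk
    exact ⟨s', s :: ρ, by simp [h1], h4, h5⟩

/-- A node with two successors is the node of a path. -/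
theorem PT.branch {t : List ℕ} {k k' : ℕ} (hk : k ≠ k') (h' : t ++ [k'] ∈ TP nd P g) :
    ∀ {ρ : List X} {s : X}, P (s :: ρ) ∈ g → t ++ [k] <+: nd s → ∃ r σ, P (r :: σ) ∈ g ∧ nd r = t
  | [], s, h, h1 => by
    exfalso
    rw [H.single h] at h1
    have h2 := H.root_cmp h'
    rcases h2 with h2 | h2
    · exact hk (snoc_inj h1 h2)
    · exact hk (snoc_inj (h1.trans h2) List.prefix_rfl)
  | s' :: ρ, s, h, h1 => by
    have h2 := (H.ptr.step _ _ _ h).1
    obtain ⟨l, hl⟩ := H.snoc h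
    by_cases h3 : t ++ [k] <+: nd s'
    · exact PT.branch hk h' h2 h3
    · rcases cmp_of_common h1 ((List.prefix_append _ _).trans hl) with h4 | h4
      · exact (h3 h4).elim
      · have h5 : nd s' <+: t := by
          rcases List.prefix_concat_iff.1 h4 with h5 | h5
          · exact (h3 (h5 ▸ List.prefix_rfl)).elim
          · exact h5
        by_cases h6 : nd s' = t
        · exact ⟨s', ρ, h2, h6⟩
        · exfalso
          -- `nd s' ++ [l] <+: t`
          have h7 : nd s' ++ [l] <+: t := by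
            refine snoc_le_of_cmp h5 h6 ?_
            exact cmp_of_common hl ((List.prefix_append _ _).trans h1)
          have h8 : Cmp (t ++ [k']) (nd s) :=
            H.cmp h hl h' (Or.inr (h7.trans (List.prefix_append _ _)))
          rcases h8 with h8 | h8
          · exact hk (snoc_inj h1 h8)
          · exact hk (snoc_inj (h1.trans h8) List.prefix_rfl)

end

end Pool.Agent.Lib.MP_a78e1f_lc.H76
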