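import Pool.Agent.Lib.MP_a78e1f_lc.H76.TrComb

/-!
# Trees of paths give trees of the family: the general part of TRM and TRL
-/

set_option autoImplicit false
set_option linter.unusedSectionVars false

universe u v w

open Cardinal Filter MeasureTheory

namespace Pool.Agent.Lib.MP_a78e1f_lc.H76

open Pool.Agent.Lib.MP_100a6c_lc
open Pool.Agent.Lib.MP_e6fef2_lc
open Pool.Agent.Lib.MP_6d445e_gt

theorem mem_tst_of {𝒯 : Set (List ℕ) → Prop} {A : Type u} [CompleteBooleanAlgebra A]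
    (σ : TX 𝒯 A) : ∀ᶠ g in ae A, ∀ t, σ.1 t ∈ g → (∀ t', σ.1 t' ∈ g → Cmp t' t) →
    tst σ t ∈ g := by
  have h1 : ∀ᶠ g in ae A, ∀ t : List ℕ,
      (⨅ t', ⨅ _ : ¬ Cmp t' t, (σ.1 t')ᶜ) ∈ g ↔ ∀ t', (⨅ _ : ¬ Cmp t' t, (σ.1 t')ᶜ) ∈ g :=
    ae_all fun t => ae_iInf _
  have h2 : ∀ᶠ g in ae A, ∀ t t' : List ℕ,
      (⨅ _ : ¬ Cmp t' t, (σ.1 t')ᶜ) ∈ g ↔ ∀ _ : ¬ Cmp t' t, (σ.1 t')ᶜ ∈ g :=
    ae_all fun t => ae_all fun t' => ae_iInf _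
  filter_upwards [h1, h2] with g h1 h2 t ht hc
  refine g.mem_inf.2 ⟨ht, (h1 t).2 fun t' => (h2 t t').2 fun hn => g.mem_compl.2 fun h => ?_⟩
  exact hn (hc t' h)

/-- What is used of the extension by the tree forcing. -/
structure TExt (𝒯 : Set (List ℕ) → Prop) {A C : Type u} [CompleteBooleanAlgebra A]
    [CompleteBooleanAlgebra C] (f : A → C) (G : TX 𝒯 A → C) (ND : List ℕ → C) : Prop where
  fam : TFam 𝒯
  ce : IsCE f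
  inc : ∀ t t', ¬ Cmp t t' → ND t ⊓ ND t' = ⊥
  up : ∀ t, ND t = ⨆ k, ND (t ++ [k])
  pnd : ∀ (τ : TX 𝒯 A) t, prj f (G τ ⊓ ND t) = τ.1 t
  nd : ∀ (τ : TX 𝒯 A) t, f (tst τ t) ⊓ G τ ≤ ND t
  rs : ∀ (τ : TX 𝒯 A) t, ∃ τ' : TX 𝒯 A, f (τ.1 t) ⊓ G τ' = G τ ⊓ ND t ∧
    τ.1 t ≤ tst τ' t ∧ τ.1 t ≤ (TQ 𝒯 A).le τ' τ
  de : ∀ c : C, c ≠ ⊥ → ∃ (b : A) (τ : TX 𝒯 A), b ≠ ⊥ ∧ f b ⊓ G τ ≤ c
  pj : ∀ τ : TX 𝒯 A, prj f (G τ) = ⊤
  fo : ∀ (τ : TX 𝒯 A) (c : C) (a : A), a ≤ (prj f (G τ ⊓ cᶜ))ᶜ ↔ f a ⊓ G τ ≤ c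
  fg : ∀ τ τ' : TX 𝒯 A, (prj f (G τ ⊓ (G τ')ᶜ))ᶜ = (TQ 𝒯 A).le τ τ'

section

variable {𝒯 : Set (List ℕ) → Prop} {A C : Type u} [CompleteBooleanAlgebra A]
  [CompleteBooleanAlgebra C] {f : A → C} {G : TX 𝒯 A → C} {ND : List ℕ → C}
  (H : TExt 𝒯 f G ND)

include H

theorem TExt.lin (c : C) (a : A) : prj f (c ⊓ f a) = prj f c ⊓ a :=
  (all_alg A C f H.ce).2.2.2.2.2.2.2.2.2.2.2.2.2.2.2.2.1 c a

theorem TExt.pmono {a b : C} (h : a ≤ b) : prj f a ≤ prj f b :=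
  (all_alg A C f H.ce).2.2.2.2.2.2.2.2.2.2.2.2.1 a b h

theorem TExt.leT {σ τ : TX 𝒯 A} {a : A} : f a ⊓ G σ ≤ G τ ↔ a ≤ (TQ 𝒯 A).le σ τ := by
  rw [← H.fg σ τ, H.fo]

theorem TExt.prjG (τ : TX 𝒯 A) (b : A) : prj f (f b ⊓ G τ) = b := by
  rw [inf_comm, H.lin, H.pj, top_inf_eq]

variable {X : Type u} [Countable X] {ok : List ℕ → List ℕ → Prop} {nd : X → List ℕ}
  {ed : ℕ → X → X → A} {s0 : X} {P : List X → A} {a : A} {τ : TX 𝒯 A}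

/-- The nodes of the generic branch at an ultrafilter. -/
theorem TExt.ev (hτ : ∀ᶠ g in ae A, a ∈ g → PT ok nd ed s0 P g ∧ {t | τ.1 t ∈ g} = TP nd P g) :
    ∃ ρ : List ℕ → TX 𝒯 A, ∀ᶠ h in ae C, f a ⊓ G τ ∈ h → ∀ g : Ult A, (∀ b, b ∈ g ↔ f b ∈ h) →
      a ∈ g ∧ PT ok nd ed s0 P g ∧ {t | τ.1 t ∈ g} = TP nd P g ∧
      (∀ t, ND t ∈ h → ∃ k, ND (t ++ [k]) ∈ h) ∧ (∀ t, ND t ∈ h → t ∈ TP nd P g) ∧
      (∀ t, ND t ∈ h → G (ρ t) ∈ h) ∧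
      (∀ t, ND t ∈ h → ∀ t', (ρ t).1 t' ∈ g → Cmp t' t ∧ t' ∈ TP nd P g) ∧
      (∀ t, ND t ∈ h → ∀ t0, (∀ t', (ρ t).1 t' ∈ g → Cmp t' t0) → ND t0 ∈ h) ∧
      ((∀ t' ∈ TP nd P g, Cmp t' (nd s0)) → ND (nd s0) ∈ h) := by
  choose ρ hρ1 hρ2 hρ3 using H.rs τ
  refine ⟨ρ, ?_⟩
  have hprj : ∀ c : C, c ≤ f (prj f c) := (all_alg A C f H.ce).2.2.2.2.2.2.2.2.2.1
  have k1 : ∀ᶠ h in ae C, ∀ t, ND t ∈ h → ∃ k, ND (t ++ [k]) ∈ h := by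
    refine ae_all fun t => ?_
    filter_upwards [ae_iSup fun k => ND (t ++ [k])] with h hh ht
    rw [H.up t] at ht
    exact hh.1 ht
  have q1 : ∀ᶠ g in ae A, ∀ t, ∀ t1, (ρ t).1 t1 ∈ g → (∀ t', (ρ t).1 t' ∈ g → Cmp t' t1) →
      tst (ρ t) t1 ∈ g := ae_all fun t => mem_tst_of (ρ t)
  have q3 : ∀ᶠ g in ae A, ∀ t, 𝒯 {t' | (ρ t).1 t' ∈ g} := ae_all fun t => (ρ t).2
  filter_upwards [k1, ae_pull H.ce hτ, ae_pull H.ce q1, ae_pull H.ce q3,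
    ae_pull H.ce (mem_tst_of τ), ae_pull H.ce τ.2] with h k1 g1 g2 g3 g4 g5 hp g0 hg0
  obtain ⟨g, hgdef⟩ : ∃ g, g = h.pull H.ce := ⟨_, rfl⟩
  have hgg : g0 = g := by
    apply Ult.ext
    ext b
    rw [hgdef]
    exact hg0 b
  subst hgg
  rw [← hgdef] at g1 g2 g3 g4 g5
  obtain ⟨hag, hτs⟩ := h.mem_inf.1 hp
  have hg : a ∈ g0 := (hg0 a).2 hag
  obtain ⟨hPT, hTP⟩ := g1 hg
  have ndtree : ∀ t, ND t ∈ h → τ.1 t ∈ g0 := by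
    intro t ht
    have e1 : f (prj f (G τ ⊓ ND t)) ∈ h := h.mono (hprj _) (h.mem_inf.2 ⟨hτs, ht⟩)
    rw [H.pnd] at e1
    exact (hg0 _).2 e1
  have e : ∀ t, τ.1 t ∈ g0 ↔ t ∈ TP nd P g0 := fun t => by
    rw [← hTP]
    rfl
  have resG : ∀ t, ND t ∈ h → G (ρ t) ∈ h := by
    intro t ht
    have e1 : G τ ⊓ ND t ∈ h := h.mem_inf.2 ⟨hτs, ht⟩
    rw [← hρ1 t] at e1
    exact (h.mem_inf.1 e1).2
  refine ⟨hg, hPT, hTP, k1, fun t ht => (e t).1 (ndtree t ht), resG, fun t ht t' ht' => ?_,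
    fun t ht t0 hc => ?_, fun hc => ?_⟩
  · have e1 : tst (ρ t) t ∈ g0 := g0.mono (hρ2 t) (ndtree t ht)
    have e2 : (TQ 𝒯 A).le (ρ t) τ ∈ g0 := g0.mono (hρ3 t) (ndtree t ht)
    exact ⟨(of_tst e1).2 t' ht', (e t').1 (g0.mem_himp.1 (g0.mono (iInf_le _ t') e2) ht')⟩
  · have e1 : t0 ∈ {t' | (ρ t).1 t' ∈ g0} :=
      fam_mem H.fam (g3 t) (H.fam.nil _ (g3 t)) fun t' ht' _ => hc t' ht'
    exact h.mono (H.nd _ _) (h.mem_inf.2 ⟨(hg0 _).1 (g2 t t0 e1 hc), resG _ ht⟩)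
  · have hc' : ∀ t', τ.1 t' ∈ g0 → Cmp t' (nd s0) := fun t' ht' => hc t' ((e t').1 ht')
    have e1 : nd s0 ∈ {t' | τ.1 t' ∈ g0} :=
      fam_mem H.fam g5 (H.fam.nil _ g5) fun t' ht' _ => hc' t' ht'
    exact h.mono (H.nd _ _) (h.mem_inf.2 ⟨(hg0 _).1 (g4 _ e1 hc'), hτs⟩)

/-- The generic branch. -/
theorem TExt.brn (hτ : ∀ᶠ g in ae A, a ∈ g → PT ok nd ed s0 P g ∧ {t | τ.1 t ∈ g} = TP nd P g) :
    ∀ᶠ h in ae C, f a ⊓ G τ ∈ h → ∀ g : Ult A, (∀ b, b ∈ g ↔ f b ∈ h) →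
      ∃ π : ℕ → List X, π 0 = [s0] ∧ (∀ n, ∃ s, π (n + 1) = s :: π n) ∧ (∀ n, P (π n) ∈ g) ∧
        ∀ s ρ, P (s :: ρ) ∈ g → (ND (nd s) ∈ h ↔ s :: ρ = π ρ.length) := by
  obtain ⟨ρ, hρ⟩ := H.ev hτ
  filter_upwards [hρ] with h hρ hp g hg
  obtain ⟨ha, hPT, hTP, k1, k2, k3, k4, k5, k6⟩ := hρ hp g hg
  -- the step
  have step : ∀ x : {x : X × List X // P (x.1 :: x.2) ∈ g ∧ ND (nd x.1) ∈ h}, ∃ s' : X,
      P (s' :: x.1.1 :: x.1.2) ∈ g ∧ ND (nd s') ∈ h := by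
    rintro ⟨⟨s, σ⟩, hs, hnd⟩
    obtain ⟨k, hk⟩ := k1 _ hnd
    obtain ⟨r, κ, h1, h2⟩ := k2 _ hk
    obtain ⟨s', h3, h4, h5⟩ := hPT.above hs h1 h2
    refine ⟨s', h3, k5 _ hk _ fun t' ht' => ?_⟩
    obtain ⟨hc, ht⟩ := k4 _ hk t' ht'
    exact hPT.cmp h3 h4 ht hc
  choose F hF1 hF2 using step
  obtain ⟨ζ, hζ0, hζ⟩ : ∃ ζ : ℕ → {x : X × List X // P (x.1 :: x.2) ∈ g ∧ ND (nd x.1) ∈ h},
      (ζ 0).1 = (s0, []) ∧ ∀ n, (ζ (n + 1)).1 = (F (ζ n), (ζ n).1.1 :: (ζ n).1.2) := by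
    refine ⟨fun n => Nat.rec ⟨(s0, []), hPT.ptr.root, k6 fun t' ht' => hPT.root_cmp ht'⟩
      (fun n x => ⟨(F x, x.1.1 :: x.1.2), hF1 x, hF2 x⟩) n, rfl, fun n => rfl⟩
  have hlen : ∀ n, (ζ n).1.2.length = n := by
    intro n
    induction n with
    | zero => rw [hζ0]; rfl
    | succ n ih => rw [hζ]; simp [ih]
  refine ⟨fun n => (ζ n).1.1 :: (ζ n).1.2, by simp only [hζ0], fun n => ⟨F (ζ n), ?_⟩,
    fun n => (ζ n).2.1, fun s κ hs => ⟨fun hnd => ?_, fun he => ?_⟩⟩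
  · simp only [hζ]
  · refine hPT.inj hs (ζ κ.length).2.1 (hlen _).symm ?_
    by_contra hc
    have h3 := h.mem_inf.2 ⟨hnd, (ζ κ.length).2.2⟩
    rw [H.inc _ _ hc] at h3
    exact h.not_bot h3
  · simp only [List.cons.injEq] at he
    rw [he.1]
    exact (ζ κ.length).2.2

/-- Trees in the generic filter. -/
theorem TExt.gen (hτ : ∀ᶠ g in ae A, a ∈ g → PT ok nd ed s0 P g ∧ {t | τ.1 t ∈ g} = TP nd P g)
    (σ : TX 𝒯 A) : ∀ᶠ h in ae C, f a ⊓ G τ ∈ h → ∀ g : Ult A, (∀ b, b ∈ g ↔ f b ∈ h) →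
      ∀ s ρ, P (s :: ρ) ∈ g → ND (nd s) ∈ h →
        (∀ s' ρ', P (s' :: ρ') ∈ g → s :: ρ <:+ s' :: ρ' → σ.1 (nd s') ∈ g) → G σ ∈ h := by
  obtain ⟨ρ, hρ⟩ := H.ev hτ
  have q2 : ∀ᶠ g in ae A, ∀ t, (TQ 𝒯 A).le (ρ t) σ ∈ g ↔ ∀ s, (ρ t).1 s ∈ g → σ.1 s ∈ g :=
    ae_all fun t => mem_leT (ρ t) σ
  filter_upwards [hρ, ae_pull H.ce q2, ae_pull H.ce σ.2] with h hρ g2 g3 hp g hg s κ hs hnd hσ
  have hgg : g = h.pull H.ce := by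
    apply Ult.ext
    ext b
    exact hg b
  rw [← hgg] at g2 g3
  obtain ⟨ha, hPT, hTP, k1, k2, k3, k4, k5, k6⟩ := hρ hp g hg
  have e1 : (TQ 𝒯 A).le (ρ (nd s)) σ ∈ g := by
    rw [g2]
    intro t' ht'
    obtain ⟨hc, ht⟩ := k4 _ hnd t' ht'
    obtain ⟨r, κ', h1, h2, h3⟩ := hPT.cases hs ht hc
    exact H.fam.pre _ g3 t' (nd r) h3 (hσ r κ' h1 h2)
  have e2 : f ((TQ 𝒯 A).le (ρ (nd s)) σ) ⊓ G (ρ (nd s)) ≤ G σ := H.leT.2 le_rfl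
  exact h.mono e2 (h.mem_inf.2 ⟨(hg _).1 e1, k3 _ hnd⟩)

/-- Density. -/
theorem TExt.den (hτ : ∀ᶠ g in ae A, a ∈ g → PT ok nd ed s0 P g ∧ {t | τ.1 t ∈ g} = TP nd P g)
    (hspl : ∀ g : Ult A, PT ok nd ed s0 P g → ∀ T, 𝒯 T → T ⊆ TP nd P g → ∀ n0, ∃ s ρ,
      n0 ≤ ρ.length ∧ P (s :: ρ) ∈ g ∧ ∀ m : ℕ, ∃ s' l, m ≤ l ∧ ok (nd s ++ [l]) (nd s') ∧
        P (s' :: s :: ρ) ∈ g ∧ nd s' ∈ T)
    (r : C) (hr : r ≠ ⊥) (hra : r ≤ f a ⊓ G τ) (n0 : ℕ) :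
    ∃ (s : X) (ρ : List X), n0 ≤ ρ.length ∧
      ∃ a', a' ≠ ⊥ ∧ a' ≤ a ∧ ∀ᶠ g in ae A, a' ∈ g → P (s :: ρ) ∈ g ∧
        ∀ m : ℕ, ∃ s' l, m ≤ l ∧ ok (nd s ++ [l]) (nd s') ∧ P (s' :: s :: ρ) ∈ g ∧
          prj f (r ⊓ ND (nd s')) ∈ g := by
  obtain ⟨b, σ, hb, hbr⟩ := H.de r hr
  have hba : b ≤ a := by
    have h1 := H.pmono (hbr.trans (hra.trans (inf_le_left : f a ⊓ G τ ≤ f a)))
    rw [H.prjG] at h1
    have h2 := H.lin (G τ) a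
    have h3 := H.pmono (le_top : G τ ≤ ⊤)
    rw [H.pj] at h3
    have h4 : prj f (f a) = a := by
      have h5 := H.lin (⊤ : C) a
      rw [top_inf_eq, top_le_iff.1 h3, top_inf_eq] at h5
      exact h5
    rwa [h4] at h1
  have hbl : b ≤ (TQ 𝒯 A).le σ τ := H.leT.1 (hbr.trans (hra.trans inf_le_right))
  have hpr : ∀ t, b ⊓ σ.1 t ≤ prj f (r ⊓ ND t) := by
    intro t
    have h1 : f b ⊓ G σ ⊓ ND t ≤ r ⊓ ND t := inf_le_inf_right _ hbr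
    refine le_trans (le_of_eq ?_) (H.pmono h1)
    have h2 : f b ⊓ G σ ⊓ ND t = G σ ⊓ ND t ⊓ f b := by
      rw [inf_assoc, inf_comm]
    rw [h2, H.lin, H.pnd, inf_comm]
  -- the Boolean values
  obtain ⟨v, hv⟩ := exists_name (A := A) (J := X × List X)
    (F := fun x g => P (x.1 :: x.2) ∈ g ∧ ∀ m : ℕ, ∃ s' l, m ≤ l ∧
      ok (nd x.1 ++ [l]) (nd s') ∧ P (s' :: x.1 :: x.2) ∈ g ∧ prj f (r ⊓ ND (nd s')) ∈ g)
    (fun x => measurableSet_setOfPred.2 ((meas_mem _).and (Measurable.forall fun m =>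
      Measurable.exists fun s' => Measurable.exists fun l => measurable_const.and
        (measurable_const.and ((meas_mem _).and (meas_mem _))))))
  by_contra hcon
  apply hb
  have key : b ≤ ⨆ x : {x : X × List X // n0 ≤ x.2.length}, v x.1 := by
    refine le_of_ae ?_
    filter_upwards [hv, hτ, σ.2, mem_leT σ τ,
      ae_iSup fun x : {x : X × List X // n0 ≤ x.2.length} => v x.1] with g g1 g2 g3 g4 g5 hbg
    obtain ⟨hPT, hTP⟩ := g2 (g.mono hba hbg)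
    have hsub : {t | σ.1 t ∈ g} ⊆ TP nd P g := by
      rw [← hTP]
      exact fun t ht => g4.1 (g.mono hbl hbg) t ht
    obtain ⟨s, ρ, h1, h2, h3⟩ := hspl g hPT _ g3 hsub n0
    rw [g5]
    refine ⟨⟨(s, ρ), h1⟩, (g1 _).2 ⟨h2, fun m => ?_⟩⟩
    obtain ⟨s', l, h4, h5, h6, h7⟩ := h3 m
    exact ⟨s', l, h4, h5, h6, g.mono (hpr _) (g.mem_inf.2 ⟨hbg, h7⟩)⟩
  have hz : ∀ x : {x : X × List X // n0 ≤ x.2.length}, b ⊓ v x.1 = ⊥ := by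
    rintro ⟨⟨s, ρ⟩, hx⟩
    by_contra hne
    refine hcon ⟨s, ρ, hx, b ⊓ v (s, ρ), hne, inf_le_left.trans hba, ?_⟩
    filter_upwards [hv] with g g1 g2
    exact (g1 _).1 (g.mem_inf.1 g2).2
  have h1 : b = ⨆ x : {x : X × List X // n0 ≤ x.2.length}, b ⊓ v x.1 := by
    rw [← inf_iSup_eq]
    exact (inf_eq_left.2 key).symm
  rw [h1]
  exact iSup_eq_bot.2 hz

end

theorem meas_TP {A : Type u} [CompleteBooleanAlgebra A] {X : Type u} [Countable X]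
    (nd : X → List ℕ) (P : List X → A) (t : List ℕ) :
    Measurable fun g : Ult A => t ∈ TP nd P g :=
  Measurable.exists fun _ => Measurable.exists fun _ => (meas_mem _).and measurable_const

/-- The general theorem. -/
theorem trs_of {𝒯 : Set (List ℕ) → Prop} {ok : List ℕ → List ℕ → Prop} (fam : TFam 𝒯)
    (hok : ∀ t t', ok t t' → t <+: t') (ltree : LtreeStatement.{u}) (gnd : GndStatement.{u})
    (gmx : GmxStatement.{u})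
    (htree : ∀ {A : Type u} [CompleteBooleanAlgebra A] {X : Type u} (nd : X → List ℕ)
      (ed : ℕ → X → X → A) (s0 : X) (P : List X → A) (g : Ult A),
      PT ok nd ed s0 P g → 𝒯 (TP nd P g))
    (hspl : ∀ {A : Type u} [CompleteBooleanAlgebra A] {X : Type u} (nd : X → List ℕ)
      (ed : ℕ → X → X → A) (s0 : X) (P : List X → A) (g : Ult A),
      PT ok nd ed s0 P g → ∀ T, 𝒯 T → T ⊆ TP nd P g → ∀ n0, ∃ s ρ,
      n0 ≤ ρ.length ∧ P (s :: ρ) ∈ g ∧ ∀ m : ℕ, ∃ s' l, m ≤ l ∧ ok (nd s ++ [l]) (nd s') ∧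
        P (s' :: s :: ρ) ∈ g ∧ nd s' ∈ T) : Trs.{u} 𝒯 ok := by
  intro A _ X _ nd gd ed hPH s0 a ha
  obtain ⟨P, hP⟩ := ltree ok hok A X nd gd ed hPH s0 a ha
  obtain ⟨g1, g2, g3, g4, g5, g6, g7, g8⟩ := gnd 𝒯 fam A
  obtain ⟨m1, m2, m3, m4, m5, m6, m7, m8⟩ := gmx 𝒯 fam A
  have hf : IsCE (tE 𝒯 A) := (all_tw1 A (TX 𝒯 A) (TQ 𝒯 A)).1
  have H : TExt 𝒯 (tE 𝒯 A) (fun τ : TX 𝒯 A => tG τ) (fun t => tND t) :=
    { fam := fam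
      ce := hf
      inc := g4
      up := g5
      pnd := g7
      nd := g8
      rs := fun τ t => by
        obtain ⟨τ', h1, h2, h3, -⟩ := m1 τ t
        exact ⟨τ', h1, h2, h3⟩
      de := m2
      pj := m3
      fo := m6
      fg := m7 }
  have hPT : ∀ᶠ g in ae A, a ∈ g → PT ok nd ed s0 P g := by
    filter_upwards [hP] with g h1 h2
    have h3 := h1 h2
    refine ⟨h3, hok, fun s' s π h => ?_, fun s ρ h => ?_⟩
    · obtain ⟨l, -, hl⟩ := hPH.node 0 s s' fun h4 => by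
        have h5 := (h3.step _ _ _ h).2
        rw [h4] at h5
        exact g.not_bot h5
      exact ⟨l, hl⟩
    · have h4 : gd s ∈ g := by
        cases ρ with
        | nil =>
          obtain ⟨κ, hκ⟩ := h3.last _ h
          have h5 : s = s0 := by
            cases κ with
            | nil => simpa using hκ
            | cons a κ => simp at hκ
          rw [h5]
          exact g.mono ha h2
        | cons r ρ => exact g.mono (hPH.le _ _ _) (h3.step _ _ _ h).2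
      refine hPH.inc s fun h5 => ?_
      rw [h5] at h4
      exact g.not_bot h4
  obtain ⟨T0, hT0⟩ := fam.ne
  obtain ⟨F, hF⟩ : ∃ F : List ℕ → Ult A → Prop, ∀ t g, F t g ↔
      (a ∈ g ∧ t ∈ TP nd P g) ∨ (a ∉ g ∧ t ∈ T0) := ⟨fun t g => _, fun _ _ => Iff.rfl⟩
  have hFm : ∀ t, MeasurableSet {g | F t g} := by
    intro t
    simp only [hF]
    exact measurableSet_setOfPred.2 (((meas_mem a).and (meas_TP nd P t)).or
      ((meas_mem a).not.and measurable_const))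
  obtain ⟨τ, hτ⟩ := m8 F hFm (by
    filter_upwards [hPT] with g h1
    by_cases hg : a ∈ g
    · have e : {t | F t g} = TP nd P g := by
        ext t
        simp only [Set.mem_ofPred_eq, hF, hg, true_and, not_true_eq_false, false_and, or_false]
      rw [e]
      exact htree nd ed s0 P g (h1 hg)
    · have e : {t | F t g} = T0 := by
        ext t
        simp only [Set.mem_ofPred_eq, hF, hg, false_and, not_false_eq_true, true_and, false_or]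
      rw [e]
      exact hT0)
  have hτ' : ∀ᶠ g in ae A, a ∈ g → PT ok nd ed s0 P g ∧ {t | τ.1 t ∈ g} = TP nd P g := by
    filter_upwards [hPT, hτ] with g h1 h2 hg
    refine ⟨h1 hg, ?_⟩
    ext t
    simp only [Set.mem_ofPred_eq, h2, hF, hg, true_and, not_true_eq_false, false_and, or_false]
  exact ⟨P, τ, hP, H.brn hτ', H.gen hτ', fun r hr hra n0 =>
    H.den hτ' (fun g hg => hspl nd ed s0 P g hg) r hr hra n0⟩

end Pool.Agent.Lib.MP_a78e1f_lc.H76
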